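import Pool.Agent.Q10.CR.Pot

/-!
# The Green function of a walk on `ℤ⁴` by Fourier analysis: Bessel's inequality
-/

set_option autoImplicit false

namespace Q10.CR

open Finset Filter Topology MeasureTheory
open scoped Real

/-- the measure on `(-π, π]` -/
noncomputable def ν1 : Measure ℝ := volume.restrict (Set.Ioc (-π) π)

instance : IsFiniteMeasure ν1 := by
  unfold ν1
  infer_instance

instance : NullSingletonClass ν1 := by
  unfold ν1
  infer_instance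

/-- the measure on the box -/
noncomputable def ν4 : Measure (Fin 4 → ℝ) := Measure.pi (fun _ => ν1)

instance : IsFiniteMeasure ν4 := by
  unfold ν4
  infer_instance

/-- the character of `x` -/
noncomputable def ch (x : Fin 4 → ℤ) (θ : Fin 4 → ℝ) : ℂ :=
  ∏ j, Complex.exp (Complex.I * x j * θ j)

theorem ch_add (x y : Fin 4 → ℤ) (θ : Fin 4 → ℝ) : ch (x + y) θ = ch x θ * ch y θ := by
  unfold ch
  rw [← prod_mul_distrib]
  refine prod_congr rfl fun j _ => ?_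
  rw [← Complex.exp_add]
  congr 1
  simp only [Pi.add_apply]
  push_cast
  ring

theorem ch_zero (θ : Fin 4 → ℝ) : ch 0 θ = 1 := by
  unfold ch
  simp

theorem conj_ch (x : Fin 4 → ℤ) (θ : Fin 4 → ℝ) : (starRingEnd ℂ) (ch x θ) = ch (-x) θ := by
  unfold ch
  rw [map_prod]
  refine prod_congr rfl fun j _ => ?_
  rw [← Complex.exp_conj]
  congr 1
  simp

theorem norm_ch (x : Fin 4 → ℤ) (θ : Fin 4 → ℝ) : ‖ch x θ‖ = 1 := by
  unfold ch
  rw [norm_prod]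
  refine prod_eq_one fun j _ => ?_
  rw [Complex.norm_exp]
  simp

theorem cont_ch (x : Fin 4 → ℤ) : Continuous (ch x) := by
  unfold ch
  fun_prop

theorem int1 (n : ℤ) : ∫ θ, Complex.exp (Complex.I * n * θ) ∂ν1 = if n = 0 then (2 * π : ℂ) else 0 := by
  unfold ν1
  rw [← intervalIntegral.integral_of_le (by linarith [Real.pi_pos])]
  split_ifs with h
  · subst h
    simp
    ring
  · have hc : Complex.I * (n : ℂ) ≠ 0 := by
      simp [h]
    rw [integral_exp_mul_complex hc]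
    have h1 : Complex.exp (Complex.I * n * (π : ℝ)) = Complex.exp (Complex.I * n * ((-π : ℝ) : ℂ)) := by
      rw [Complex.exp_eq_exp_iff_exists_int]
      refine ⟨n, ?_⟩
      push_cast
      ring
    rw [h1, sub_self, zero_div]

theorem int_ch (x : Fin 4 → ℤ) : ∫ θ, ch x θ ∂ν4 = if x = 0 then (((2 * π) ^ 4 : ℝ) : ℂ) else 0 := by
  unfold ν4 ch
  rw [integral_fintype_prod_eq_prod (fun j (θ : ℝ) => Complex.exp (Complex.I * x j * θ))]
  simp only [int1]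
  split_ifs with h
  · subst h
    simp
  · obtain ⟨j, hj⟩ : ∃ j, x j ≠ 0 := by
      by_contra hcon
      push Not at hcon
      exact h (funext hcon)
    exact prod_eq_zero (mem_univ j) (by rw [if_neg hj])

theorem integ {f : (Fin 4 → ℝ) → ℂ} (hf : Continuous f) {C : ℝ} (hC : ∀ θ, ‖f θ‖ ≤ C) :
    Integrable f ν4 :=
  Integrable.of_bound hf.aestronglyMeasurable C (Eventually.of_forall hC)

variable {S : Finset (Fin 4 → ℤ)} {w : (Fin 4 → ℤ) → ℝ}

/-- the characteristic function of a step -/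
noncomputable def phi (S : Finset (Fin 4 → ℤ)) (w : (Fin 4 → ℤ) → ℝ) (θ : Fin 4 → ℝ) : ℂ :=
  ∑ s ∈ S, (w s : ℂ) * ch s θ

theorem cont_phi (S : Finset (Fin 4 → ℤ)) (w : (Fin 4 → ℤ) → ℝ) : Continuous (phi S w) := by
  unfold phi
  exact continuous_finsetSum _ fun s _ => continuous_const.mul (cont_ch s)

theorem norm_phi (h : Wts S w) (θ : Fin 4 → ℝ) : ‖phi S w θ‖ ≤ 1 := by
  unfold phi
  refine (norm_sum_le _ _).trans ?_
  rw [← h.one]
  refine sum_le_sum fun s hs => ?_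
  rw [norm_mul, norm_ch, mul_one, Complex.norm_real, Real.norm_eq_abs, abs_of_nonneg (h.nn s hs)]

theorem norm_phi_pow (h : Wts S w) (n : ℕ) (θ : Fin 4 → ℝ) : ‖phi S w θ ^ n‖ ≤ 1 := by
  rw [norm_pow]
  exact pow_le_one₀ (norm_nonneg _) (norm_phi h θ)

theorem ker_eq (h : Wts S w) (n : ℕ) (x : Fin 4 → ℤ) :
    ∫ θ, phi S w θ ^ n * ch (-x) θ ∂ν4 = ((2 * π) ^ 4 : ℝ) * (ker S w n x : ℂ) := by
  induction n generalizing x with
  | zero =>
    simp only [pow_zero, one_mul]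
    rw [int_ch]
    unfold ker
    simp only [neg_eq_zero]
    split_ifs <;> simp
  | succ n ih =>
    have h1 : ∀ θ, phi S w θ ^ (n + 1) * ch (-x) θ =
        ∑ s ∈ S, (w s : ℂ) * (phi S w θ ^ n * ch (-(x - s)) θ) := by
      intro θ
      rw [pow_succ, mul_assoc]
      conv_lhs => rw [show phi S w θ * ch (-x) θ = ∑ s ∈ S, (w s : ℂ) * ch s θ * ch (-x) θ by
        unfold phi; rw [sum_mul]]
      rw [mul_sum]
      refine sum_congr rfl fun s _ => ?_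
      rw [show -(x - s) = s + -x by abel, ch_add]
      ring
    rw [integral_congr_ae (Eventually.of_forall h1), integral_finsetSum]
    · show _ = (((2 * π) ^ 4 : ℝ) : ℂ) * ((∑ s ∈ S, w s * ker S w n (x - s) : ℝ) : ℂ)
      push_cast
      rw [mul_sum]
      refine sum_congr rfl fun s _ => ?_
      rw [integral_const_mul, ih]
      push_cast
      ring
    · intro s _
      refine Integrable.const_mul ?_ _
      refine integ (C := 1) (((cont_phi S w).pow n).mul (cont_ch _)) fun θ => ?_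
      rw [norm_mul, norm_ch, mul_one]
      exact norm_phi_pow h n θ

/-- Bessel's inequality -/
theorem bessel {Φ : (Fin 4 → ℝ) → ℂ} (hΦ : Continuous Φ) {C : ℝ} (hC : ∀ θ, ‖Φ θ‖ ≤ C)
    (Q : Finset (Fin 4 → ℤ)) (a : (Fin 4 → ℤ) → ℝ)
    (ha : ∀ x ∈ Q, ∫ θ, Φ θ * ch (-x) θ ∂ν4 = ((2 * π) ^ 4 : ℝ) * (a x : ℂ)) :
    (2 * π) ^ 4 * ∑ x ∈ Q, a x ^ 2 ≤ ∫ θ, ‖Φ θ‖ ^ 2 ∂ν4 := by
  set Ψ : (Fin 4 → ℝ) → ℂ := fun θ => ∑ x ∈ Q, (a x : ℂ) * ch x θ with hΨ
  have hΨc : Continuous Ψ := continuous_finsetSum _ fun x _ => continuous_const.mul (cont_ch x)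
  have hΨb : ∀ θ, ‖Ψ θ‖ ≤ ∑ x ∈ Q, |a x| := by
    intro θ
    refine (norm_sum_le _ _).trans (sum_le_sum fun x _ => ?_)
    rw [norm_mul, norm_ch, mul_one, Complex.norm_real, Real.norm_eq_abs]
  set D := ∑ x ∈ Q, |a x| with hD
  have hC0 : 0 ≤ C := (norm_nonneg _).trans (hC 0)
  have hD0 : 0 ≤ D := (norm_nonneg _).trans (hΨb 0)
  have conjΨ : ∀ θ, (starRingEnd ℂ) (Ψ θ) = ∑ x ∈ Q, (a x : ℂ) * ch (-x) θ := by
    intro θ
    rw [hΨ]
    simp only [map_sum, map_mul, conj_ch, Complex.conj_ofReal]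
  have i1 : ∫ θ, Φ θ * (starRingEnd ℂ) (Ψ θ) ∂ν4 = ((2 * π) ^ 4 : ℝ) * ((∑ x ∈ Q, a x ^ 2 : ℝ) : ℂ) := by
    have e : ∀ θ, Φ θ * (starRingEnd ℂ) (Ψ θ) = ∑ x ∈ Q, (a x : ℂ) * (Φ θ * ch (-x) θ) := by
      intro θ
      rw [conjΨ, mul_sum]
      exact sum_congr rfl fun x _ => by ring
    rw [integral_congr_ae (Eventually.of_forall e), integral_finsetSum]
    · push_cast
      rw [mul_sum]
      refine sum_congr rfl fun x hx => ?_
      rw [integral_const_mul, ha x hx]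
      push_cast
      ring
    · intro x _
      refine Integrable.const_mul (integ (C := C) (hΦ.mul (cont_ch _)) fun θ => ?_) _
      show ‖Φ θ * ch (-x) θ‖ ≤ C
      rw [norm_mul, norm_ch, mul_one]
      exact hC θ
  have i2 : ∫ θ, Ψ θ * (starRingEnd ℂ) (Φ θ) ∂ν4 = ((2 * π) ^ 4 : ℝ) * ((∑ x ∈ Q, a x ^ 2 : ℝ) : ℂ) := by
    have e : ∀ θ, Ψ θ * (starRingEnd ℂ) (Φ θ) = (starRingEnd ℂ) (Φ θ * (starRingEnd ℂ) (Ψ θ)) := by
      intro θ
      simp [mul_comm]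
    rw [integral_congr_ae (Eventually.of_forall e), integral_conj, i1, map_mul,
      Complex.conj_ofReal, Complex.conj_ofReal]
  have i3 : ∫ θ, Ψ θ * (starRingEnd ℂ) (Ψ θ) ∂ν4 = ((2 * π) ^ 4 : ℝ) * ((∑ x ∈ Q, a x ^ 2 : ℝ) : ℂ) := by
    have e : ∀ θ, Ψ θ * (starRingEnd ℂ) (Ψ θ) =
        ∑ x ∈ Q, ∑ y ∈ Q, ((a x : ℂ) * a y) * ch (x + -y) θ := by
      intro θ
      rw [conjΨ, hΨ]
      simp only [sum_mul_sum]
      refine sum_congr rfl fun x _ => sum_congr rfl fun y _ => ?_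
      rw [ch_add]
      ring
    have hint : ∀ x y : Fin 4 → ℤ, Integrable (fun θ => ((a x : ℂ) * a y) * ch (x + -y) θ) ν4 :=
      fun x y => (integ (C := 1) (cont_ch _) fun θ => (norm_ch _ _).le).const_mul _
    rw [integral_congr_ae (Eventually.of_forall e), integral_finsetSum _ fun x _ =>
      integrable_finsetSum _ fun y _ => hint x y]
    push_cast
    rw [mul_sum]
    refine sum_congr rfl fun x hx => ?_
    rw [integral_finsetSum _ fun y _ => hint x y]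
    rw [sum_eq_single x]
    · rw [integral_const_mul, int_ch, if_pos (by abel)]
      push_cast
      ring
    · intro y _ hyx
      rw [integral_const_mul, int_ch, if_neg, mul_zero]
      intro h0
      apply hyx
      rw [← sub_eq_add_neg, sub_eq_zero] at h0
      exact h0.symm
    · intro h0
      exact absurd hx h0
  have i4 : ∫ θ, Φ θ * (starRingEnd ℂ) (Φ θ) ∂ν4 = ((∫ θ, ‖Φ θ‖ ^ 2 ∂ν4 : ℝ) : ℂ) := by
    rw [← integral_complex_ofReal]
    refine integral_congr_ae (Eventually.of_forall fun θ => ?_)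
    show Φ θ * (starRingEnd ℂ) (Φ θ) = ((‖Φ θ‖ ^ 2 : ℝ) : ℂ)
    rw [Complex.mul_conj, Complex.normSq_eq_norm_sq]
  have cc : ∀ {f : (Fin 4 → ℝ) → ℂ}, Continuous f → Continuous (fun θ => (starRingEnd ℂ) (f θ)) :=
    fun hf => Complex.continuous_conj.comp hf
  have nb : ∀ {f g : (Fin 4 → ℝ) → ℂ} {a b : ℝ}, (∀ θ, ‖f θ‖ ≤ a) → (∀ θ, ‖g θ‖ ≤ b) → 0 ≤ a →
      ∀ θ, ‖f θ * (starRingEnd ℂ) (g θ)‖ ≤ a * b := by
    intro f g a b hf hg ha θ
    rw [norm_mul, RCLike.norm_conj]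
    exact mul_le_mul (hf θ) (hg θ) (norm_nonneg _) ha
  have j1 := integ (hΦ.mul (cc hΨc)) (nb hC hΨb hC0)
  have j2 := integ (hΨc.mul (cc hΦ)) (nb hΨb hC hD0)
  have j3 := integ (hΨc.mul (cc hΨc)) (nb hΨb hΨb hD0)
  have j4 := integ (hΦ.mul (cc hΦ)) (nb hC hC hC0)
  have i5 : ((∫ θ, ‖Φ θ - Ψ θ‖ ^ 2 ∂ν4 : ℝ) : ℂ) =
      ((∫ θ, ‖Φ θ‖ ^ 2 ∂ν4 : ℝ) : ℂ) - ((2 * π) ^ 4 : ℝ) * ((∑ x ∈ Q, a x ^ 2 : ℝ) : ℂ) := by
    rw [← integral_complex_ofReal]
    have e : ∀ θ, ((‖Φ θ - Ψ θ‖ ^ 2 : ℝ) : ℂ) = (Φ θ * (starRingEnd ℂ) (Φ θ) -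
        Φ θ * (starRingEnd ℂ) (Ψ θ)) - (Ψ θ * (starRingEnd ℂ) (Φ θ) -
          Ψ θ * (starRingEnd ℂ) (Ψ θ)) := by
      intro θ
      rw [← Complex.normSq_eq_norm_sq, ← Complex.mul_conj, map_sub]
      ring
    have k1 := integral_sub (j4.sub j1) (j2.sub j3)
    have k2 := integral_sub j4 j1
    have k3 := integral_sub j2 j3
    rw [integral_congr_ae (Eventually.of_forall e)]
    simp only [Pi.sub_apply, Pi.mul_apply] at k1 k2 k3
    rw [k1, k2, k3, i1, i2, i3, i4]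
    ring
  have i6 : (0 : ℝ) ≤ ∫ θ, ‖Φ θ - Ψ θ‖ ^ 2 ∂ν4 := integral_nonneg fun θ => by positivity
  have i7 : ∫ θ, ‖Φ θ - Ψ θ‖ ^ 2 ∂ν4 = ∫ θ, ‖Φ θ‖ ^ 2 ∂ν4 - (2 * π) ^ 4 * ∑ x ∈ Q, a x ^ 2 := by
    exact_mod_cast i5
  linarith

/-- the partial sums of the powers of the characteristic function -/
noncomputable def geo (S : Finset (Fin 4 → ℤ)) (w : (Fin 4 → ℤ) → ℝ) (N : ℕ) (θ : Fin 4 → ℝ) : ℂ :=
  ∑ n ∈ range N, phi S w θ ^ n

theorem cont_geo (S : Finset (Fin 4 → ℤ)) (w : (Fin 4 → ℤ) → ℝ) (N : ℕ) :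
    Continuous (geo S w N) := by
  unfold geo
  exact continuous_finsetSum _ fun n _ => (cont_phi S w).pow n

theorem norm_geo (h : Wts S w) (N : ℕ) (θ : Fin 4 → ℝ) : ‖geo S w N θ‖ ≤ N := by
  unfold geo
  refine (norm_sum_le _ _).trans ?_
  calc ∑ n ∈ range N, ‖phi S w θ ^ n‖ ≤ ∑ _n ∈ range N, (1 : ℝ) :=
        sum_le_sum fun n _ => norm_phi_pow h n θ
    _ = N := by simp

theorem norm_geo_mul (h : Wts S w) (N : ℕ) (θ : Fin 4 → ℝ) :
    ‖1 - phi S w θ‖ * ‖geo S w N θ‖ ≤ 2 := by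
  unfold geo
  rw [← norm_mul, mul_neg_geom_sum]
  refine (norm_sub_le _ _).trans ?_
  rw [norm_one]
  linarith [norm_phi_pow h N θ]

theorem geo_eq (h : Wts S w) (N : ℕ) (x : Fin 4 → ℤ) :
    ∫ θ, geo S w N θ * ch (-x) θ ∂ν4 =
      ((2 * π) ^ 4 : ℝ) * ((∑ n ∈ range N, ker S w n x : ℝ) : ℂ) := by
  have e : ∀ θ, geo S w N θ * ch (-x) θ = ∑ n ∈ range N, phi S w θ ^ n * ch (-x) θ := by
    intro θ
    unfold geo
    rw [sum_mul]
  rw [integral_congr_ae (Eventually.of_forall e), integral_finsetSum]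
  · push_cast
    rw [mul_sum]
    refine sum_congr rfl fun n _ => ?_
    rw [ker_eq h]
    push_cast
    ring
  · intro n _
    refine integ (C := 1) (((cont_phi S w).pow n).mul (cont_ch _)) fun θ => ?_
    rw [norm_mul, norm_ch, mul_one]
    exact norm_phi_pow h n θ

/-- the bound for the square sum of the Green function -/
theorem grn_sq (h : Wts S w) {B : (Fin 4 → ℝ) → ℝ} (hB : Integrable B ν4)
    (hle : ∀ N, ∀ᵐ θ ∂ν4, ‖geo S w N θ‖ ^ 2 ≤ B θ) :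
    (∀ x, Summable fun n => ker S w n x) ∧
    ∀ Q : Finset (Fin 4 → ℤ), (2 * π) ^ 4 * ∑ x ∈ Q, grn S w x ^ 2 ≤ ∫ θ, B θ ∂ν4 := by
  have h1 : ∀ (N : ℕ) (Q : Finset (Fin 4 → ℤ)),
      (2 * π) ^ 4 * ∑ x ∈ Q, (∑ n ∈ range N, ker S w n x) ^ 2 ≤ ∫ θ, B θ ∂ν4 := by
    intro N Q
    refine (bessel (cont_geo S w N) (norm_geo h N) Q _ fun x _ => geo_eq h N x).trans ?_
    refine integral_mono_ae ?_ hB (hle N)
    refine Integrable.of_bound (C := (N : ℝ) ^ 2) ?_ (Eventually.of_forall fun θ => ?_)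
    · exact ((cont_geo S w N).norm.pow 2).aestronglyMeasurable
    · rw [Real.norm_eq_abs, abs_of_nonneg (by positivity)]
      exact pow_le_pow_left₀ (norm_nonneg _) (norm_geo h N θ) 2
  have hpos : (0 : ℝ) < (2 * π) ^ 4 := by positivity
  have hsum : ∀ x, Summable fun n => ker S w n x := by
    intro x
    refine summable_of_sum_range_le (c := (∫ θ, B θ ∂ν4) / (2 * π) ^ 4 + 1)
      (fun n => ker_nonneg h n x) fun N => ?_
    have h2 := h1 N {x}
    rw [sum_singleton] at h2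
    set s := ∑ n ∈ range N, ker S w n x
    have h3 : s ^ 2 ≤ (∫ θ, B θ ∂ν4) / (2 * π) ^ 4 := by
      rw [le_div_iff₀ hpos]
      linarith
    nlinarith
  refine ⟨hsum, fun Q => ?_⟩
  have h2 : Tendsto (fun N => (2 * π) ^ 4 * ∑ x ∈ Q, (∑ n ∈ range N, ker S w n x) ^ 2) atTop
      (𝓝 ((2 * π) ^ 4 * ∑ x ∈ Q, grn S w x ^ 2)) :=
    (tendsto_finsetSum _ fun x _ => ((hsum x).hasSum.tendsto_sum_nat).pow 2).const_mul _
  exact le_of_tendsto' h2 fun N => h1 N Q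

/-- the bound for the Green function -/
theorem grn_sup (h : Wts S w) {B : (Fin 4 → ℝ) → ℝ} (hB : Integrable B ν4)
    (hle : ∀ N, ∀ᵐ θ ∂ν4, ‖geo S w N θ‖ ≤ B θ) :
    ∀ x, Summable fun n => ker S w n x := by
  intro x
  have hpos : (0 : ℝ) < (2 * π) ^ 4 := by positivity
  refine summable_of_sum_range_le (c := (∫ θ, B θ ∂ν4) / (2 * π) ^ 4)
    (fun n => ker_nonneg h n x) fun N => ?_
  rw [le_div_iff₀ hpos]
  have h1 := geo_eq h N x
  have h2 : ‖∫ θ, geo S w N θ * ch (-x) θ ∂ν4‖ ≤ ∫ θ, B θ ∂ν4 := by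
    refine (norm_integral_le_integral_norm _).trans (integral_mono_ae ?_ hB ?_)
    · refine (integ (C := N) ((cont_geo S w N).mul (cont_ch _)) fun θ => ?_).norm
      show ‖geo S w N θ * ch (-x) θ‖ ≤ N
      rw [norm_mul, norm_ch, mul_one]
      exact norm_geo h N θ
    · filter_upwards [hle N] with θ hθ
      rw [norm_mul, norm_ch, mul_one]
      exact hθ
  rw [h1, norm_mul, Complex.norm_real, Complex.norm_real, Real.norm_eq_abs, Real.norm_eq_abs,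
    abs_of_pos hpos, abs_of_nonneg (sum_nonneg fun n _ => ker_nonneg h n x)] at h2
  linarith

end Q10.CR
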