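import Pool.Agent.Q10.CR.Walk

/-!
# Bounds for the Green functions
-/

set_option autoImplicit false

namespace Q10.CR

open Finset Filter Topology MeasureTheory
open scoped Real

theorem rpow_bound {t δ : ℝ} (ht : 0 < t) (hδ : 0 < δ) (hδ1 : δ ≤ 2 / 5) {θ : Fin 4 → ℝ}
    (h0 : ∀ j, θ j ≠ 0) :
    t ^ (2 * δ) * ∏ j, |θ j| ^ (1 - δ / 2) ≤ nsq θ ^ 2 + t ^ 2 * θ 0 ^ 2 := by
  set M := nsq θ ^ 2 + t ^ 2 * θ 0 ^ 2 with hM
  have hL : ∀ j, 0 < |θ j| := fun j => abs_pos.2 (h0 j)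
  have hu := nsq_nonneg θ
  have hM0 : 0 < M := by
    have := sq_pos_of_pos (hL 0)
    rw [sq_abs] at this
    positivity
  set m := Real.sqrt (Real.sqrt M) with hm
  have hm0 : 0 < m := Real.sqrt_pos.2 (Real.sqrt_pos.2 hM0)
  have hm2 : m ^ 2 = Real.sqrt M := Real.sq_sqrt (Real.sqrt_nonneg _)
  have hm4 : m ^ 4 = M := by
    have : m ^ 4 = (m ^ 2) ^ 2 := by ring
    rw [this, hm2, Real.sq_sqrt hM0.le]
  have hj : ∀ j, |θ j| ≤ m := by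
    intro j
    refine (sq_le_sq₀ (abs_nonneg _) hm0.le).1 ?_
    rw [hm2, sq_abs]
    refine Real.le_sqrt_of_sq_le ?_
    have h1 := sq_le_nsq θ j
    have h2 : (θ j ^ 2) ^ 2 ≤ nsq θ ^ 2 := pow_le_pow_left₀ (sq_nonneg _) h1 2
    have h3 : 0 ≤ t ^ 2 * θ 0 ^ 2 := by positivity
    linarith
  have ht0 : t * |θ 0| ≤ m ^ 2 := by
    rw [hm2]
    refine Real.le_sqrt_of_sq_le ?_
    rw [mul_pow, sq_abs]
    have : 0 ≤ nsq θ ^ 2 := sq_nonneg _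
    linarith
  set a := 1 - δ / 2 with ha
  have e1 : t ^ (2 * δ) * |θ 0| ^ a = (t * |θ 0|) ^ (2 * δ) * |θ 0| ^ (a - 2 * δ) := by
    rw [Real.mul_rpow ht.le (hL 0).le, mul_assoc, ← Real.rpow_add (hL 0)]
    congr 2
    ring
  have b1 : (t * |θ 0|) ^ (2 * δ) ≤ m ^ (4 * δ) := by
    calc (t * |θ 0|) ^ (2 * δ) ≤ (m ^ 2) ^ (2 * δ) :=
          Real.rpow_le_rpow (by positivity) ht0 (by positivity)
      _ = m ^ (4 * δ) := by
          rw [← Real.rpow_natCast, ← Real.rpow_mul hm0.le]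
          congr 1
          push_cast
          ring
  have b2 : |θ 0| ^ (a - 2 * δ) ≤ m ^ (a - 2 * δ) :=
    Real.rpow_le_rpow (abs_nonneg _) (hj 0) (by rw [ha]; linarith)
  have b3 : ∀ j, |θ j| ^ a ≤ m ^ a := fun j =>
    Real.rpow_le_rpow (abs_nonneg _) (hj j) (by rw [ha]; linarith)
  have e2 : t ^ (2 * δ) * ∏ j, |θ j| ^ a =
      ((t * |θ 0|) ^ (2 * δ) * |θ 0| ^ (a - 2 * δ)) * (|θ 1| ^ a * (|θ 2| ^ a * |θ 3| ^ a)) := by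
    rw [Fin.prod_univ_four, ← e1]
    ring
  rw [e2]
  have hnn : ∀ (x y : ℝ), 0 ≤ x → 0 ≤ x ^ y := fun x y hx => Real.rpow_nonneg hx y
  calc ((t * |θ 0|) ^ (2 * δ) * |θ 0| ^ (a - 2 * δ)) * (|θ 1| ^ a * (|θ 2| ^ a * |θ 3| ^ a))
      ≤ (m ^ (4 * δ) * m ^ (a - 2 * δ)) * (m ^ a * (m ^ a * m ^ a)) := by
        have c1 : |θ 2| ^ a * |θ 3| ^ a ≤ m ^ a * m ^ a :=
          mul_le_mul (b3 2) (b3 3) (hnn _ _ (abs_nonneg _)) (hnn _ _ hm0.le)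
        have c2 : |θ 1| ^ a * (|θ 2| ^ a * |θ 3| ^ a) ≤ m ^ a * (m ^ a * m ^ a) :=
          mul_le_mul (b3 1) c1 (mul_nonneg (hnn _ _ (abs_nonneg _)) (hnn _ _ (abs_nonneg _)))
            (hnn _ _ hm0.le)
        have c3 : (t * |θ 0|) ^ (2 * δ) * |θ 0| ^ (a - 2 * δ) ≤ m ^ (4 * δ) * m ^ (a - 2 * δ) :=
          mul_le_mul b1 b2 (hnn _ _ (abs_nonneg _)) (hnn _ _ hm0.le)
        exact mul_le_mul c3 c2 (mul_nonneg (hnn _ _ (abs_nonneg _)) (mul_nonneg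
          (hnn _ _ (abs_nonneg _)) (hnn _ _ (abs_nonneg _)))) (mul_nonneg (hnn _ _ hm0.le)
          (hnn _ _ hm0.le))
    _ = m ^ ((4 : ℕ) : ℝ) := by
        rw [← Real.rpow_add hm0, ← Real.rpow_add hm0, ← Real.rpow_add hm0, ← Real.rpow_add hm0]
        congr 1
        rw [ha]
        push_cast
        ring
    _ = M := by rw [Real.rpow_natCast, hm4]

theorem geo_bound {t δ : ℝ} (ht : 0 < t) (ht1 : t ≤ 1 / 4) (hδ : 0 < δ) (hδ1 : δ ≤ 2 / 5)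
    {θ : Fin 4 → ℝ} (h0 : ∀ j, θ j ≠ 0) (hθ : ∀ j, |θ j| ≤ π) (N : ℕ) :
    ‖geo S4 (wt t) N θ‖ ^ 2 ≤ 32 * π ^ 4 * t ^ (-(2 * δ)) * ∏ j, |θ j| ^ (-(1 - δ / 2)) := by
  have h1 := norm_geo_mul (wts_wt ht.le ht1) N θ
  have h2 := norm_bound ht.le (by linarith) hθ
  have h3 := rpow_bound ht hδ hδ1 h0
  set M := nsq θ ^ 2 + t ^ 2 * θ 0 ^ 2
  set g := ‖geo S4 (wt t) N θ‖
  set f := ‖1 - phi S4 (wt t) θ‖
  have hg0 : 0 ≤ g := norm_nonneg _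
  have hf0 : 0 ≤ f := norm_nonneg _
  have h4 : f ^ 2 * g ^ 2 ≤ 4 := by
    rw [← mul_pow]
    nlinarith [mul_nonneg hf0 hg0]
  have hpi := Real.pi_pos
  have h5 : M * g ^ 2 ≤ 32 * π ^ 4 := by
    have h6 : 1 / (8 * π ^ 4) * M * g ^ 2 ≤ 4 :=
      (mul_le_mul_of_nonneg_right h2 (sq_nonneg g)).trans h4
    have h7 : 1 / (8 * π ^ 4) * M * g ^ 2 = (M * g ^ 2) / (8 * π ^ 4) := by ring
    rw [h7, div_le_iff₀ (by positivity)] at h6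
    linarith
  have hP : ∀ j, 0 < |θ j| ^ (1 - δ / 2) := fun j => Real.rpow_pos_of_pos (abs_pos.2 (h0 j)) _
  have hT : 0 < t ^ (2 * δ) := Real.rpow_pos_of_pos ht _
  have hPP : 0 < ∏ j, |θ j| ^ (1 - δ / 2) := prod_pos fun j _ => hP j
  have e1 : ∏ j, |θ j| ^ (-(1 - δ / 2)) = (∏ j, |θ j| ^ (1 - δ / 2))⁻¹ := by
    rw [← prod_inv_distrib]
    exact prod_congr rfl fun j _ => Real.rpow_neg (abs_nonneg _) _
  rw [e1, Real.rpow_neg ht.le]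
  have h8 : (t ^ (2 * δ) * ∏ j, |θ j| ^ (1 - δ / 2)) * g ^ 2 ≤ 32 * π ^ 4 :=
    (mul_le_mul_of_nonneg_right h3 (sq_nonneg g)).trans h5
  have e2 : 32 * π ^ 4 * (t ^ (2 * δ))⁻¹ * (∏ j, |θ j| ^ (1 - δ / 2))⁻¹ =
      32 * π ^ 4 / (t ^ (2 * δ) * ∏ j, |θ j| ^ (1 - δ / 2)) := by
    field_simp
  rw [e2, le_div_iff₀ (mul_pos hT hPP)]
  linarith

/-- **The square sum of the Green function of the walk with drift `t`.** -/
theorem green_sq {δ : ℝ} (hδ : 0 < δ) (hδ1 : δ ≤ 2 / 5) : ∃ C : ℝ, 0 < C ∧ ∀ t : ℝ, 0 < t →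
    t ≤ 1 / 4 → (∀ x, Summable fun n => ker S4 (wt t) n x) ∧
      ∀ Q : Finset (Fin 4 → ℤ), ∑ x ∈ Q, grn S4 (wt t) x ^ 2 ≤ C * t ^ (-(2 * δ)) := by
  have hpi := Real.pi_pos
  have hint := int_prod (a := 1 - δ / 2) (by linarith)
  set I := ∫ θ : Fin 4 → ℝ, ∏ j, |θ j| ^ (-(1 - δ / 2)) ∂ν4 with hI
  have hI0 : 0 ≤ I := integral_nonneg fun θ => prod_nonneg fun j _ =>
    Real.rpow_nonneg (abs_nonneg _) _
  refine ⟨2 * I + 1, by linarith, fun t ht ht1 => ?_⟩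
  obtain ⟨h1, h2⟩ := grn_sq (wts_wt ht.le ht1)
    (B := fun θ => 32 * π ^ 4 * t ^ (-(2 * δ)) * ∏ j, |θ j| ^ (-(1 - δ / 2)))
    (hint.const_mul _) fun N => by
      filter_upwards [ae_box] with θ hθ
      exact geo_bound ht ht1 hδ hδ1 hθ.2 hθ.1 N
  refine ⟨h1, fun Q => ?_⟩
  have h3 := h2 Q
  rw [integral_const_mul, ← hI] at h3
  have hT : 0 < t ^ (-(2 * δ)) := Real.rpow_pos_of_pos ht _
  have e1 : 32 * π ^ 4 * t ^ (-(2 * δ)) * I = (2 * π) ^ 4 * (2 * I * t ^ (-(2 * δ))) := by ring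
  rw [e1] at h3
  have h4 := le_of_mul_le_mul_left h3 (by positivity)
  nlinarith

/-- the simple random walk is transient -/
theorem summable_srw (x : Fin 4 → ℤ) : Summable fun n => ker S4 (wt 0) n x := by
  have hpi := Real.pi_pos
  refine grn_sup (wts_wt le_rfl (by norm_num)) (B := fun θ => 4 * π ^ 2 * ∏ j, |θ j| ^ (-(1 / 2 : ℝ)))
    ((int_prod (a := 1 / 2) (by norm_num)).const_mul _) (fun N => ?_) x
  filter_upwards [ae_box] with θ hθ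
  obtain ⟨hθ1, h0⟩ := hθ
  have h1 := norm_geo_mul (wts_wt (t := 0) le_rfl (by norm_num)) N θ
  have h2 := re_bound (t := 0) hθ1
  have h3 := (h2.trans (Complex.re_le_norm _))
  set g := ‖geo S4 (wt 0) N θ‖
  set f := ‖1 - phi S4 (wt 0) θ‖
  have hg0 : 0 ≤ g := norm_nonneg _
  have hu := nsq_nonneg θ
  have h4 : nsq θ * g ≤ 4 * π ^ 2 := by
    have := (mul_le_mul_of_nonneg_right h3 hg0).trans h1
    rw [div_mul_eq_mul_div, div_le_iff₀ (by positivity)] at this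
    linarith
  have hsq : ∀ j, |θ j| ^ (1 / 2 : ℝ) ≤ Real.sqrt (Real.sqrt (nsq θ)) := by
    intro j
    rw [← Real.sqrt_eq_rpow]
    refine Real.sqrt_le_sqrt ?_
    refine Real.le_sqrt_of_sq_le ?_
    rw [sq_abs]
    exact sq_le_nsq θ j
  have h5 : ∏ j, |θ j| ^ (1 / 2 : ℝ) ≤ nsq θ := by
    calc ∏ j, |θ j| ^ (1 / 2 : ℝ) ≤ ∏ _j : Fin 4, Real.sqrt (Real.sqrt (nsq θ)) :=
          prod_le_prod (fun j _ => Real.rpow_nonneg (abs_nonneg _) _) fun j _ => hsq j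
      _ = (Real.sqrt (Real.sqrt (nsq θ)) ^ 2) ^ 2 := by
          rw [prod_const, card_univ, Fintype.card_fin]
          ring
      _ = nsq θ := by rw [Real.sq_sqrt (Real.sqrt_nonneg _), Real.sq_sqrt hu]
  have hPP : 0 < ∏ j, |θ j| ^ (1 / 2 : ℝ) :=
    prod_pos fun j _ => Real.rpow_pos_of_pos (abs_pos.2 (h0 j)) _
  have e1 : ∏ j, |θ j| ^ (-(1 / 2 : ℝ)) = (∏ j, |θ j| ^ (1 / 2 : ℝ))⁻¹ := by
    rw [← prod_inv_distrib]
    exact prod_congr rfl fun j _ => Real.rpow_neg (abs_nonneg _) _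
  show g ≤ 4 * π ^ 2 * ∏ j, |θ j| ^ (-(1 / 2 : ℝ))
  rw [e1, ← div_eq_mul_inv, le_div_iff₀ hPP]
  have := mul_le_mul_of_nonneg_left h5 hg0
  linarith

end Q10.CR
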