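import Pool.Agent.Q10.CR.Green

/-!
# The lower bound `G(x) ≥ c / (1 + |x|²)` for the simple random walk on `ℤ⁴`
-/

set_option autoImplicit false

namespace Q10.CR

open Finset Filter Topology

/-- the square norm of an integer vector -/
def nz (x : Fin 4 → ℤ) : ℤ := ∑ j, x j ^ 2

theorem nz_nonneg (x : Fin 4 → ℤ) : 0 ≤ nz x := sum_nonneg fun j _ => sq_nonneg _

theorem sq_le_nz (x : Fin 4 → ℤ) (j : Fin 4) : x j ^ 2 ≤ nz x :=
  single_le_sum (f := fun j => x j ^ 2) (fun j _ => sq_nonneg _) (mem_univ j)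

theorem nz_sub_single (x : Fin 4 → ℤ) (j : Fin 4) :
    nz (x - Pi.single j 1) = nz x + 1 - 2 * x j := by
  unfold nz
  fin_cases j <;> simp [Fin.sum_univ_four, Pi.single_apply] <;> ring

theorem nz_add_single (x : Fin 4 → ℤ) (j : Fin 4) :
    nz (x - -Pi.single j 1) = nz x + 1 + 2 * x j := by
  unfold nz
  fin_cases j <;> simp [Fin.sum_univ_four, Pi.single_apply] <;> ring

theorem finite_nz (B : ℤ) : {x : Fin 4 → ℤ | nz x ≤ B}.Finite := by
  refine ((Fintype.piFinset fun _ : Fin 4 => Finset.Icc (-B) B).finite_toSet).subset ?_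
  intro x hx
  rw [Finset.mem_coe, Fintype.mem_piFinset]
  intro j
  rw [Set.mem_setOf_eq] at hx
  have h1 := sq_le_nz x j
  rw [Finset.mem_Icc]
  constructor <;> nlinarith

section

variable {V : Type*} [AddCommGroup V] [DecidableEq V] {S : Finset V} {w : V → ℝ}

theorem grn_eq (hG : ∀ x, Summable fun n => ker S w n x) (x : V) :
    grn S w x = (if x = 0 then 1 else 0) + ∑ s ∈ S, w s * grn S w (x - s) := by
  unfold grn
  rw [(hG x).tsum_eq_zero_add]
  congr 1
  show ∑' n, ∑ s ∈ S, w s * ker S w n (x - s) = _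
  rw [Summable.tsum_finsetSum fun s _ => (hG _).mul_left _]
  exact sum_congr rfl fun s _ => tsum_mul_left

end

/-- the Green function of the simple random walk -/
noncomputable def G0 (x : Fin 4 → ℤ) : ℝ := grn S4 (wt 0) x

theorem wt_zero (s : Fin 4 → ℤ) : wt 0 s = 1 / 8 := by
  unfold wt
  simp

theorem G0_nonneg (x : Fin 4 → ℤ) : 0 ≤ G0 x := grn_nonneg (wts_wt le_rfl (by norm_num)) x

theorem G0_eq {x : Fin 4 → ℤ} (hx : x ≠ 0) : G0 x = 1 / 8 * ∑ s ∈ S4, G0 (x - s) := by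
  unfold G0
  rw [grn_eq summable_srw, if_neg hx, zero_add, mul_sum]
  exact sum_congr rfl fun s _ => by rw [wt_zero]

theorem G0_step {x s : Fin 4 → ℤ} (hs : s ∈ S4) : 1 / 8 * G0 (x - s) ≤ G0 x := by
  have h1 : G0 x = (if x = 0 then 1 else 0) + ∑ s ∈ S4, wt 0 s * G0 (x - s) :=
    grn_eq summable_srw x
  rw [h1]
  have h2 : wt 0 s * G0 (x - s) ≤ ∑ s ∈ S4, wt 0 s * G0 (x - s) :=
    single_le_sum (f := fun s => wt 0 s * G0 (x - s)) (fun s _ => by
      rw [wt_zero]
      exact mul_nonneg (by norm_num) (G0_nonneg _)) hs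
  rw [wt_zero] at h2
  have h3 : (0 : ℝ) ≤ if x = 0 then 1 else 0 := by split_ifs <;> norm_num
  linarith

theorem mem_S4 (j : Fin 4) : Pi.single j (1 : ℤ) ∈ S4 ∧ -Pi.single j (1 : ℤ) ∈ S4 := by
  unfold S4
  constructor
  · exact mem_image.2 ⟨(j, true), mem_univ _, by simp [unit]⟩
  · exact mem_image.2 ⟨(j, false), mem_univ _, by simp [unit]⟩

theorem G0_pos (x : Fin 4 → ℤ) : 0 < G0 x := by
  obtain ⟨n, hn⟩ : ∃ n : ℕ, ∑ j, (x j).natAbs = n := ⟨_, rfl⟩
  induction n using Nat.strong_induction_on generalizing x with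
  | _ n ih =>
    by_cases hx : x = 0
    · subst hx
      have h1 : G0 0 = (if (0 : Fin 4 → ℤ) = 0 then 1 else 0) + ∑ s ∈ S4, wt 0 s * G0 (0 - s) :=
        grn_eq summable_srw 0
      rw [if_pos rfl] at h1
      have h2 : 0 ≤ ∑ s ∈ S4, wt 0 s * G0 (0 - s) := sum_nonneg fun s _ => by
        rw [wt_zero]
        exact mul_nonneg (by norm_num) (G0_nonneg _)
      linarith
    · obtain ⟨j, hj⟩ : ∃ j, x j ≠ 0 := by
        by_contra hcon
        push Not at hcon
        exact hx (funext hcon)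
      have key : ∀ s ∈ S4, ∑ i, ((x - s) i).natAbs < n → 0 < G0 x := by
        intro s hs hlt
        have h1 := ih _ hlt (x - s) rfl
        have h2 := G0_step (x := x) hs
        linarith
      rcases lt_or_gt_of_ne hj with h | h
      · refine key _ (mem_S4 j).2 ?_
        rw [← hn]
        refine sum_lt_sum (fun i _ => ?_) ⟨j, mem_univ j, ?_⟩
        · rw [Pi.sub_apply, Pi.neg_apply, Pi.single_apply]
          split_ifs with hij
          · subst hij; omega
          · omega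
        · rw [Pi.sub_apply, Pi.neg_apply, Pi.single_eq_same]
          omega
      · refine key _ (mem_S4 j).1 ?_
        rw [← hn]
        refine sum_lt_sum (fun i _ => ?_) ⟨j, mem_univ j, ?_⟩
        · rw [Pi.sub_apply, Pi.single_apply]
          split_ifs with hij
          · subst hij; omega
          · omega
        · rw [Pi.sub_apply, Pi.single_eq_same]
          omega

/-- the comparison function -/
noncomputable def Fc (x : Fin 4 → ℤ) : ℝ := 1 / ((nz x : ℝ) - 1)

theorem near (x : Fin 4 → ℤ) (hx : 9 ≤ nz x) (j : Fin 4) :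
    4 ≤ nz (x - Pi.single j 1) ∧ 4 ≤ nz (x - -Pi.single j 1) := by
  have h1 := sq_le_nz x j
  rw [nz_sub_single, nz_add_single]
  constructor
  · rcases le_or_gt (x j) 3 with h | h
    · omega
    · nlinarith
  · rcases le_or_gt (-3) (x j) with h | h
    · omega
    · nlinarith

theorem Fc_sub (x : Fin 4 → ℤ) (hx : 9 ≤ nz x) : Fc x ≤ 1 / 8 * ∑ s ∈ S4, Fc (x - s) := by
  rw [sum_S4]
  set R : ℝ := (nz x : ℝ) - 1 with hR
  have hR8 : 8 ≤ R := by
    have : (9 : ℝ) ≤ nz x := by exact_mod_cast hx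
    linarith
  have hj : ∀ j : Fin 4, 2 * (2 * (R + 1) / (R * (R + 1)) - (R + 1) * ((R + 1) ^ 2 - 4 * (x j : ℝ) ^ 2) /
      (R * (R + 1)) ^ 2) ≤ Fc (x - Pi.single j 1) + Fc (x - -Pi.single j 1) := by
    intro j
    obtain ⟨n1, n2⟩ := near x hx j
    have e1 : (nz (x - Pi.single j 1) : ℝ) - 1 = R + 1 - 2 * x j := by
      rw [nz_sub_single]; push_cast; rw [hR]; ring
    have e2 : (nz (x - -Pi.single j 1) : ℝ) - 1 = R + 1 + 2 * x j := by
      rw [nz_add_single]; push_cast; rw [hR]; ring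
    have p1 : 0 < R + 1 - 2 * (x j : ℝ) := by
      rw [← e1]
      have : (4 : ℝ) ≤ nz (x - Pi.single j 1) := by exact_mod_cast n1
      linarith
    have p2 : 0 < R + 1 + 2 * (x j : ℝ) := by
      rw [← e2]
      have : (4 : ℝ) ≤ nz (x - -Pi.single j 1) := by exact_mod_cast n2
      linarith
    unfold Fc
    rw [e1, e2]
    set D : ℝ := (R + 1) ^ 2 - 4 * (x j : ℝ) ^ 2 with hD
    have hDp : D = (R + 1 - 2 * (x j : ℝ)) * (R + 1 + 2 * (x j : ℝ)) := by rw [hD]; ring
    have hD0 : 0 < D := by rw [hDp]; exact mul_pos p1 p2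
    have e3 : 1 / (R + 1 - 2 * (x j : ℝ)) + 1 / (R + 1 + 2 * (x j : ℝ)) = 2 * (R + 1) / D := by
      rw [hDp, div_add_div _ _ p1.ne' p2.ne']
      congr 1
      ring
    rw [e3]
    set m : ℝ := R * (R + 1) with hm
    have hm0 : 0 < m := by positivity
    have h5 : 2 / m - D / m ^ 2 ≤ 1 / D := by
      rw [div_sub_div _ _ hm0.ne' (by positivity), div_le_div_iff₀ (by positivity) hD0]
      nlinarith [mul_nonneg hm0.le (sq_nonneg (D - m))]
    calc 2 * (2 * (R + 1) / m - (R + 1) * D / m ^ 2) = 2 * (R + 1) * (2 / m - D / m ^ 2) := by ring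
      _ ≤ 2 * (R + 1) * (1 / D) := mul_le_mul_of_nonneg_left h5 (by positivity)
      _ = 2 * (R + 1) / D := by ring
  have hsum : ∑ j : Fin 4, 2 * (2 * (R + 1) / (R * (R + 1)) - (R + 1) * ((R + 1) ^ 2 - 4 * (x j : ℝ) ^ 2) /
      (R * (R + 1)) ^ 2) = 8 / R := by
    have e4 : (x 0 : ℝ) ^ 2 + (x 1 : ℝ) ^ 2 + (x 2 : ℝ) ^ 2 + (x 3 : ℝ) ^ 2 = R + 1 := by
      have : nz x = x 0 ^ 2 + x 1 ^ 2 + x 2 ^ 2 + x 3 ^ 2 := by
        unfold nz; rw [Fin.sum_univ_four]
      rw [hR, this]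
      push_cast
      ring
    rw [Fin.sum_univ_four]
    have e5 : (x 3 : ℝ) ^ 2 = R + 1 - (x 0 : ℝ) ^ 2 - (x 1 : ℝ) ^ 2 - (x 2 : ℝ) ^ 2 := by linarith
    rw [e5]
    have hR0 : R ≠ 0 := by linarith
    have hR1 : R + 1 ≠ 0 := by linarith
    field_simp
    ring
  have h6 := sum_le_sum fun j (_ : j ∈ (univ : Finset (Fin 4))) => hj j
  rw [hsum] at h6
  unfold Fc at h6 ⊢
  rw [← hR]
  have e6 : (1 : ℝ) / R = 1 / 8 * (8 / R) := by ring
  rw [e6]
  exact mul_le_mul_of_nonneg_left h6 (by norm_num)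

/-- **The lower bound for the Green function.** -/
theorem green_low : ∃ c : ℝ, 0 < c ∧ ∀ x, c / (1 + nz x) ≤ G0 x := by
  obtain ⟨x0, -, hx0⟩ := (finite_nz 8).exists_minimalFor G0 {x | nz x ≤ 8}
    ⟨0, by simp [nz]⟩
  set a := G0 x0 with ha
  have ha0 : 0 < a := G0_pos x0
  have hmin : ∀ x, nz x ≤ 8 → a ≤ G0 x := by
    intro x hx
    rcases le_total a (G0 x) with h | h
    · exact h
    · exact hx0 hx h
  set D : (Fin 4 → ℤ) → ℝ := fun x => a * Fc x - G0 x with hD
  have hD8 : ∀ x, 2 ≤ nz x → nz x ≤ 8 → D x ≤ 0 := by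
    intro x h1 h2
    have h3 := hmin x h2
    have h4 : Fc x ≤ 1 := by
      unfold Fc
      have : (2 : ℝ) ≤ nz x := by exact_mod_cast h1
      rw [div_le_one (by linarith)]
      linarith
    rw [hD]
    show a * Fc x - G0 x ≤ 0
    nlinarith
  have hDall : ∀ x, 2 ≤ nz x → D x ≤ 0 := by
    by_contra hcon
    push Not at hcon
    obtain ⟨z, hz2, hz⟩ := hcon
    set ε := D z with hε
    set T : Set (Fin 4 → ℤ) := {x | 2 ≤ nz x ∧ ε ≤ D x} with hT
    have hTfin : T.Finite := by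
      refine (finite_nz (⌈a / ε + 1⌉)).subset ?_
      rintro x ⟨h1, h2⟩
      rw [Set.mem_setOf_eq]
      have h3 : (2 : ℝ) ≤ nz x := by exact_mod_cast h1
      have h4 : ε ≤ a * Fc x := by
        have := G0_nonneg x
        have h5 : ε ≤ a * Fc x - G0 x := h2
        linarith
      unfold Fc at h4
      rw [mul_one_div, le_div_iff₀ (by linarith)] at h4
      have h6 : (nz x : ℝ) ≤ a / ε + 1 := by
        have : (nz x : ℝ) - 1 ≤ a / ε := by
          rw [le_div_iff₀ hz]
          linarith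
        linarith
      exact_mod_cast h6.trans (Int.le_ceil _)
    obtain ⟨x1, hx1T, hx1⟩ := hTfin.exists_maximalFor D T ⟨z, hz2, le_rfl⟩
    have hx1max : ∀ x ∈ T, D x ≤ D x1 := by
      intro x hx
      rcases le_total (D x) (D x1) with h | h
      · exact h
      · exact hx1 hx h
    set T1 : Set (Fin 4 → ℤ) := {x | x ∈ T ∧ D x = D x1} with hT1
    obtain ⟨x2, hx2T, hx2⟩ := (hTfin.subset (fun x hx => hx.1 : T1 ⊆ T)).exists_maximalFor nz T1
      ⟨x1, hx1T, rfl⟩
    have hx2max : ∀ x ∈ T1, nz x ≤ nz x2 := by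
      intro x hx
      rcases le_total (nz x) (nz x2) with h | h
      · exact h
      · exact hx2 hx h
    have h9 : 9 ≤ nz x2 := by
      by_contra hlt
      have := hD8 x2 hx2T.1.1 (by omega)
      have h7 := hx2T.1.2
      linarith
    have hne : x2 ≠ 0 := by
      rintro rfl
      simp [nz] at h9
    have hle : ∀ y, 2 ≤ nz y → D y ≤ D x2 := by
      intro y hy
      rw [hx2T.2]
      rcases lt_or_ge (D y) ε with h | h
      · exact (h.le).trans hx1T.2
      · exact hx1max y ⟨hy, h⟩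
    have hav : D x2 ≤ 1 / 8 * ∑ s ∈ S4, D (x2 - s) := by
      have h1 := Fc_sub x2 h9
      have h2 := G0_eq hne
      have h3 : ∑ s ∈ S4, D (x2 - s) = a * ∑ s ∈ S4, Fc (x2 - s) - ∑ s ∈ S4, G0 (x2 - s) := by
        rw [mul_sum, ← sum_sub_distrib]
      rw [h3]
      show a * Fc x2 - G0 x2 ≤ _
      rw [h2]
      have h4 := mul_le_mul_of_nonneg_left h1 ha0.le
      linarith
    rw [sum_S4, Fin.sum_univ_four] at hav
    have q : ∀ j : Fin 4, D (x2 - Pi.single j 1) ≤ D x2 ∧ D (x2 - -Pi.single j 1) ≤ D x2 := fun j =>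
      ⟨hle _ (by have := (near x2 h9 j).1; omega), hle _ (by have := (near x2 h9 j).2; omega)⟩
    have q0 := q 0
    have q1 := q 1
    have q2 := q 2
    have q3 := q 3
    rcases le_total 0 (x2 0) with h | h
    · have e1 : D (x2 - -Pi.single 0 1) = D x2 := le_antisymm q0.2 (by linarith [q0.1, q1.1, q1.2, q2.1, q2.2, q3.1, q3.2])
      have h5 : x2 - -Pi.single 0 1 ∈ T1 := by
        refine ⟨⟨by have := (near x2 h9 0).2; omega, ?_⟩, ?_⟩
        · rw [e1]; exact hx2T.1.2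
        · rw [e1]; exact hx2T.2
      have h6 := hx2max _ h5
      rw [nz_add_single] at h6
      omega
    · have e1 : D (x2 - Pi.single 0 1) = D x2 := le_antisymm q0.1 (by linarith [q0.2, q1.1, q1.2, q2.1, q2.2, q3.1, q3.2])
      have h5 : x2 - Pi.single 0 1 ∈ T1 := by
        refine ⟨⟨by have := (near x2 h9 0).1; omega, ?_⟩, ?_⟩
        · rw [e1]; exact hx2T.1.2
        · rw [e1]; exact hx2T.2
      have h6 := hx2max _ h5
      rw [nz_sub_single] at h6
      omega
  refine ⟨a, ha0, fun x => ?_⟩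
  have hn : (0 : ℝ) ≤ nz x := by exact_mod_cast nz_nonneg x
  rcases le_or_gt (nz x) 8 with h | h
  · have h1 := hmin x h
    rw [div_le_iff₀ (by linarith)]
    nlinarith
  · have h1 := hDall x (by omega)
    have h2 : a * Fc x ≤ G0 x := by
      have : a * Fc x - G0 x ≤ 0 := h1
      linarith
    refine le_trans ?_ h2
    unfold Fc
    have h8 : (8 : ℝ) < nz x := by exact_mod_cast h
    rw [mul_one_div]
    exact div_le_div_of_nonneg_left ha0.le (by linarith) (by linarith)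

end Q10.CR
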