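import Pool.Agent.Q10.CR.Pot

/-!
# Expectations for a finite range random walk
-/

set_option autoImplicit false

namespace Q10.CR

open Finset Filter Topology MeasureTheory ProbabilityTheory

variable {V : Type*} [AddCommGroup V] [DecidableEq V] [MeasurableSpace V] [Countable V]
  [MeasurableSingletonClass V] {S : Finset V} {w : V → ℝ}
variable {Ω : Type*} [MeasurableSpace Ω] {P : Measure Ω}

/-- independent steps with the weights `w s`, `s ∈ S` -/
structure IsWalk (S : Finset V) (w : V → ℝ) (P : Measure Ω) (ξ : ℕ → Ω → V) : Prop where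
  meas : ∀ i, Measurable (ξ i)
  indep : iIndepFun ξ P
  law : ∀ i, P.map (ξ i) = ∑ s ∈ S, ENNReal.ofReal (w s) • Measure.dirac s

variable {ξ : ℕ → Ω → V}

theorem ae_mem (h : IsWalk S w P ξ) (i : ℕ) : ∀ᵐ ω ∂P, ξ i ω ∈ S := by
  have h1 : ∀ᵐ v ∂(P.map (ξ i)), v ∈ S := by
    rw [h.law i, ae_iff, Measure.finset_sum_apply]
    refine sum_eq_zero fun s hs => ?_
    rw [Measure.smul_apply, Measure.dirac_apply]
    simp [hs]
  exact (ae_map_iff (h.meas i).aemeasurable (Set.to_countable _).measurableSet).1 h1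

theorem ae_mem_all (h : IsWalk S w P ξ) : ∀ᵐ ω ∂P, ∀ i, ξ i ω ∈ S :=
  ae_all_iff.2 fun i => ae_mem h i

/-- the function `Ψ` depends on the first `N` terms only -/
def Dep (N : ℕ) (Ψ : (ℕ → V) → ℝ) : Prop := ∀ a b : ℕ → V, (∀ i < N, a i = b i) → Ψ a = Ψ b

/-- extension of a finite sequence by zeros -/
def ext0 (N : ℕ) (b : Fin N → V) : ℕ → V := fun i => if h : i < N then b ⟨i, h⟩ else 0

theorem dep_eq {N : ℕ} {Ψ : (ℕ → V) → ℝ} (hΨ : Dep N Ψ) (a : ℕ → V) :
    Ψ a = Ψ (ext0 N (fun i => a i)) :=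
  hΨ _ _ fun i hi => by unfold ext0; rw [dif_pos hi]

theorem meas_dep (h : IsWalk S w P ξ) {N : ℕ} {Ψ : (ℕ → V) → ℝ} (hΨ : Dep N Ψ) :
    Measurable (fun ω => Ψ (fun i => ξ i ω)) := by
  have h1 : (fun ω => Ψ (fun i => ξ i ω)) =
      (fun b : Fin N → V => Ψ (ext0 N b)) ∘ (fun ω => fun i : Fin N => ξ i ω) := by
    funext ω
    exact dep_eq hΨ _
  rw [h1]
  exact (Measurable.of_discrete).comp (measurable_pi_lambda _ fun i => h.meas i)

theorem bdd_dep (h : IsWalk S w P ξ) {N : ℕ} {Ψ : (ℕ → V) → ℝ} (hΨ : Dep N Ψ) :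
    ∃ C : ℝ, ∀ᵐ ω ∂P, |Ψ (fun i => ξ i ω)| ≤ C := by
  refine ⟨∑ b ∈ Fintype.piFinset (fun _ : Fin N => S), |Ψ (ext0 N b)|, ?_⟩
  filter_upwards [ae_mem_all h] with ω hω
  rw [dep_eq hΨ]
  exact single_le_sum (f := fun b => |Ψ (ext0 N b)|) (fun b _ => abs_nonneg _)
    (Fintype.mem_piFinset.2 fun i => hω i)

variable [IsProbabilityMeasure P]

theorem int_dep (h : IsWalk S w P ξ) {N : ℕ} {Ψ : (ℕ → V) → ℝ} (hΨ : Dep N Ψ) :
    Integrable (fun ω => Ψ (fun i => ξ i ω)) P := by
  obtain ⟨C, hC⟩ := bdd_dep h hΨ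
  exact Integrable.of_bound (meas_dep h hΨ).aestronglyMeasurable C (by simpa using hC)

theorem int_law (hw : Wts S w) (h : IsWalk S w P ξ) (i : ℕ) (f : V → ℝ) :
    ∫ ω, f (ξ i ω) ∂P = ∑ s ∈ S, w s * f s := by
  have h1 : ∫ v, f v ∂(P.map (ξ i)) = ∫ ω, f (ξ i ω) ∂P :=
    integral_map (h.meas i).aemeasurable (Measurable.of_discrete).aestronglyMeasurable
  rw [← h1, h.law i, integral_finsetSum_measure]
  · refine sum_congr rfl fun s hs => ?_
    rw [integral_smul_measure, integral_dirac, ENNReal.toReal_ofReal (hw.nn s hs), smul_eq_mul]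
  · intro s _
    exact (integrable_dirac (by finiteness)).smul_measure ENNReal.ofReal_ne_top

theorem int_mul (hw : Wts S w) (h : IsWalk S w P ξ) {N : ℕ} {Ψ : (ℕ → V) → ℝ} (hΨ : Dep N Ψ)
    (f : V → ℝ) : ∫ ω, Ψ (fun i => ξ i ω) * f (ξ N ω) ∂P =
      (∫ ω, Ψ (fun i => ξ i ω) ∂P) * ∑ s ∈ S, w s * f s := by
  have h1 := h.indep.indepFun_finset (range N) {N} (by simp) h.meas
  set φ : (range N → V) → ℝ := fun b => Ψ (ext0 N fun i => b ⟨i, mem_range.2 i.2⟩) with hφ
  set ψ : ({N} : Finset ℕ) → V := fun _ => 0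
  have h2 : IndepFun (fun ω => φ (fun i : range N => ξ i ω))
      (fun ω => f (ξ N ω)) P := by
    have := h1.comp (φ := φ) (ψ := fun b : ({N} : Finset ℕ) → V => f (b ⟨N, mem_singleton_self N⟩))
      Measurable.of_discrete Measurable.of_discrete
    exact this
  have h3 : ∀ ω, Ψ (fun i => ξ i ω) = φ (fun i : range N => ξ i ω) := fun ω => dep_eq hΨ _
  have h4 := h2.integral_fun_mul_eq_mul_integral (by
      have := (meas_dep h hΨ).aestronglyMeasurable (μ := P)
      simpa only [h3] using this) (by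
      exact ((Measurable.of_discrete (f := f)).comp (h.meas N)).aestronglyMeasurable)
  rw [int_law hw h N f] at h4
  simpa only [← h3] using h4

theorem markov (hw : Wts S w) (h : IsWalk S w P ξ) {N : ℕ} {Ψ : (ℕ → V) → ℝ} (hΨ : Dep (N + 1) Ψ) :
    ∫ ω, Ψ (fun i => ξ i ω) ∂P =
      ∑ s ∈ S, w s * ∫ ω, Ψ (Function.update (fun i => ξ i ω) N s) ∂P := by
  have hd : ∀ s, Dep N (fun a => Ψ (Function.update a N s)) := by
    intro s a b hab
    refine hΨ _ _ fun i hi => ?_
    rcases eq_or_ne i N with rfl | hne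
    · simp
    · rw [Function.update_of_ne hne, Function.update_of_ne hne]
      exact hab i (by omega)
  have h1 : ∀ᵐ ω ∂P, Ψ (fun i => ξ i ω) = ∑ s ∈ S, Ψ (Function.update (fun i => ξ i ω) N s) *
      (if ξ N ω = s then (1 : ℝ) else 0) := by
    filter_upwards [ae_mem h N] with ω hω
    rw [sum_eq_single (ξ N ω)]
    · rw [if_pos rfl, mul_one]
      congr 1
      exact (Function.update_eq_self N (fun i => ξ i ω)).symm
    · intro s _ hs
      rw [if_neg (Ne.symm hs), mul_zero]
    · intro hn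
      exact absurd hω hn
  have hm := fun s => int_mul hw h (hd s) (fun v => if v = s then (1 : ℝ) else 0)
  rw [integral_congr_ae h1, integral_finsetSum]
  · refine sum_congr rfl fun s hs => ?_
    rw [hm s]
    have : ∑ v ∈ S, w v * (if v = s then (1 : ℝ) else 0) = w s := by
      rw [sum_eq_single s]
      · simp
      · intro v _ hv
        rw [if_neg hv, mul_zero]
      · intro hn
        exact absurd hs hn
    rw [this, mul_comm]
  · intro s _
    have hd' : Dep (N + 1) (fun a : ℕ → V => Ψ (Function.update a N s) *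
        (if a N = s then (1 : ℝ) else 0)) := by
      intro a b hab
      show Ψ (Function.update a N s) * (if a N = s then (1 : ℝ) else 0) =
        Ψ (Function.update b N s) * (if b N = s then (1 : ℝ) else 0)
      have e1 := hd s a b (fun i hi => hab i (by omega))
      have e2 : Ψ (Function.update a N s) = Ψ (Function.update b N s) := e1
      rw [e2, hab N (by omega)]
    exact int_dep h hd'

/-! ### positions -/

/-- the position after `n` steps -/
def ps (a : ℕ → V) (n : ℕ) : V := ∑ i ∈ range n, a i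

theorem ps_succ (a : ℕ → V) (n : ℕ) : ps a (n + 1) = ps a n + a n := sum_range_succ _ _

theorem ps_congr {a b : ℕ → V} {N n : ℕ} (h : ∀ i < N, a i = b i) (hn : n ≤ N) : ps a n = ps b n :=
  sum_congr rfl fun i hi => h i (by rw [mem_range] at hi; omega)

theorem ps_update (a : ℕ → V) {N n : ℕ} (s : V) (hn : n ≤ N) : ps (Function.update a N s) n = ps a n := by
  refine ps_congr (N := N) (fun i hi => ?_) hn
  rw [Function.update_of_ne (by omega)]

/-- the possible positions after `n` steps -/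
def supp (S : Finset V) : ℕ → Finset V
  | 0 => {0}
  | n + 1 => (supp S n ×ˢ S).image (fun p => p.1 + p.2)

theorem ker_supp (S : Finset V) (w : V → ℝ) (n : ℕ) (x : V) (hx : x ∉ supp S n) :
    ker S w n x = 0 := by
  induction n generalizing x with
  | zero =>
    unfold supp at hx
    unfold ker
    rw [if_neg (by simpa using hx)]
  | succ n ih =>
    show ∑ s ∈ S, w s * ker S w n (x - s) = 0
    refine sum_eq_zero fun s hs => ?_
    rw [ih, mul_zero]
    intro hcon
    apply hx
    unfold supp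
    rw [mem_image]
    exact ⟨(x - s, s), mem_product.2 ⟨hcon, hs⟩, by simp⟩

theorem kersum_succ (S : Finset V) (w : V → ℝ) (m : ℕ) (f : V → ℝ) :
    ∑ x ∈ supp S (m + 1), ker S w (m + 1) x * f x =
      ∑ s ∈ S, w s * ∑ x ∈ supp S m, ker S w m x * f (x + s) := by
  have e2 : ∀ x ∈ supp S (m + 1), ker S w (m + 1) x * f x =
      ∑ s ∈ S, w s * (ker S w m (x - s) * f x) := by
    intro x _
    show (∑ s ∈ S, w s * ker S w m (x - s)) * f x = _
    rw [sum_mul]
    exact sum_congr rfl fun s _ => mul_assoc _ _ _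
  rw [sum_congr rfl e2, sum_comm]
  refine sum_congr rfl fun s hs => ?_
  rw [← mul_sum]
  congr 1
  have e3 : ∑ x ∈ supp S m, ker S w m x * f (x + s) =
      ∑ x ∈ (supp S m).image (fun x => x + s), ker S w m (x - s) * f x := by
    rw [sum_image (fun a _ b _ hab => add_right_cancel hab)]
    exact sum_congr rfl fun x _ => by rw [add_sub_cancel_right]
  rw [e3]
  symm
  refine sum_subset ?_ ?_
  · intro x hx
    rw [mem_image] at hx
    obtain ⟨y, hy, rfl⟩ := hx
    unfold supp
    exact mem_image.2 ⟨(y, s), mem_product.2 ⟨hy, hs⟩, rfl⟩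
  · intro x _ hx2
    rw [ker_supp, zero_mul]
    intro hcon
    exact hx2 (mem_image.2 ⟨x - s, hcon, by simp⟩)

theorem kersum_one (hw : Wts S w) (m : ℕ) : ∑ x ∈ supp S m, ker S w m x = 1 := by
  induction m with
  | zero => unfold supp ker; simp
  | succ m ih =>
    have h1 := kersum_succ S w m (fun _ => 1)
    simp only [mul_one] at h1
    rw [h1, ← sum_mul, ih, hw.one, mul_one]

theorem exp_incr (hw : Wts S w) (h : IsWalk S w P ξ) (k m : ℕ) (f : V → ℝ) :
    ∫ ω, f (ps (fun i => ξ i ω) (k + m) - ps (fun i => ξ i ω) k) ∂P =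
      ∑ x ∈ supp S m, ker S w m x * f x := by
  induction m generalizing f with
  | zero =>
    simp only [add_zero, sub_self, integral_const]
    unfold supp ker
    simp
  | succ m ih =>
    have hd : Dep (k + m + 1) (fun a : ℕ → V => f (ps a (k + (m + 1)) - ps a k)) := by
      intro a b hab
      show f _ = f _
      rw [ps_congr hab (by omega), ps_congr hab (n := k) (by omega)]
    rw [markov hw h hd, kersum_succ]
    refine sum_congr rfl fun s _ => ?_
    rw [← ih (fun x => f (x + s))]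
    congr 1
    refine integral_congr_ae (Eventually.of_forall fun ω => ?_)
    show f _ = f _
    rw [← add_assoc, ps_succ, ps_update _ _ le_rfl, ps_update _ _ (by omega), Function.update_self]
    congr 1
    abel

theorem exp_incr_le (hw : Wts S w) (h : IsWalk S w P ξ) (k m : ℕ) (f : V → ℝ)
    (B : Finset V) (hB : supp S m ⊆ B) :
    ∫ ω, f (ps (fun i => ξ i ω) (k + m) - ps (fun i => ξ i ω) k) ∂P =
      ∑ x ∈ B, ker S w m x * f x := by
  rw [exp_incr hw h]
  refine sum_subset hB fun x _ hx => ?_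
  rw [ker_supp _ _ _ _ hx, zero_mul]

/-! ### escape probabilities -/

theorem surv_eq (hw : Wts S w) (h : IsWalk S w P ξ) (A : Finset V) (x : V) (N : ℕ) :
    P.real {ω | ∀ m, 1 ≤ m → m ≤ N → x + ps (fun i => ξ i ω) m ∉ A} = surv S w A N x := by
  classical
  set Q : (V → ℝ) → V → ℝ := fun f y => ∑ s ∈ S, w s * (if y + s ∈ A then 0 else f (y + s)) with hQ
  set g : ℕ → (V → ℝ) → (ℕ → V) → ℝ := fun N f a =>
    (if ∀ m, 1 ≤ m → m ≤ N → x + ps a m ∉ A then (1 : ℝ) else 0) * f (x + ps a N) with hg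
  have hdep : ∀ N f, Dep N (g N f) := by
    intro N f a b hab
    have e1 : (∀ m, 1 ≤ m → m ≤ N → x + ps a m ∉ A) ↔ (∀ m, 1 ≤ m → m ≤ N → x + ps b m ∉ A) := by
      constructor
      · intro h1 m h2 h3
        rw [← ps_congr hab h3]
        exact h1 m h2 h3
      · intro h1 m h2 h3
        rw [ps_congr hab h3]
        exact h1 m h2 h3
    show (if _ then (1 : ℝ) else 0) * _ = (if _ then (1 : ℝ) else 0) * _
    rw [ps_congr hab le_rfl]
    by_cases h4 : ∀ m, 1 ≤ m → m ≤ N → x + ps a m ∉ A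
    · rw [if_pos h4, if_pos (e1.1 h4)]
    · rw [if_neg h4, if_neg (fun h5 => h4 (e1.2 h5))]
  have key : ∀ N f, ∫ ω, g N f (fun i => ξ i ω) ∂P = (Q^[N] f) x := by
    intro N
    induction N with
    | zero =>
      intro f
      have : ∀ ω, g 0 f (fun i => ξ i ω) = f x := by
        intro ω
        show (if _ then (1 : ℝ) else 0) * f (x + ps _ 0) = f x
        rw [if_pos (fun m h1 h2 => by omega)]
        unfold ps
        simp
      simp only [this, integral_const, probReal_univ, one_smul]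
      rfl
    | succ N ih =>
      intro f
      rw [markov hw h (hdep (N + 1) f), Function.iterate_succ_apply, ← ih (Q f)]
      have e1 : ∀ s ∈ S, w s * ∫ ω, g (N + 1) f (Function.update (fun i => ξ i ω) N s) ∂P =
          ∫ ω, w s * ((if ∀ m, 1 ≤ m → m ≤ N → x + ps (fun i => ξ i ω) m ∉ A then (1 : ℝ) else 0) *
            (if x + ps (fun i => ξ i ω) N + s ∈ A then 0 else f (x + ps (fun i => ξ i ω) N + s))) ∂P := by
        intro s _
        rw [integral_const_mul]
        congr 1
        refine integral_congr_ae (Eventually.of_forall fun ω => ?_)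
        show (if ∀ m, 1 ≤ m → m ≤ N + 1 → x + ps (Function.update (fun i => ξ i ω) N s) m ∉ A
          then (1 : ℝ) else 0) * f (x + ps (Function.update (fun i => ξ i ω) N s) (N + 1)) =
          (if ∀ m, 1 ≤ m → m ≤ N → x + ps (fun i => ξ i ω) m ∉ A then (1 : ℝ) else 0) *
            (if x + ps (fun i => ξ i ω) N + s ∈ A then 0 else f (x + ps (fun i => ξ i ω) N + s))
        have e2 : ps (Function.update (fun i => ξ i ω) N s) (N + 1) = ps (fun i => ξ i ω) N + s := by
          rw [ps_succ, ps_update _ _ le_rfl, Function.update_self]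
        have e3 : (∀ m, 1 ≤ m → m ≤ N + 1 → x + ps (Function.update (fun i => ξ i ω) N s) m ∉ A) ↔
            ((∀ m, 1 ≤ m → m ≤ N → x + ps (fun i => ξ i ω) m ∉ A) ∧
              x + ps (fun i => ξ i ω) N + s ∉ A) := by
          constructor
          · intro h1
            refine ⟨fun m h2 h3 => ?_, ?_⟩
            · have := h1 m h2 (by omega)
              rwa [ps_update _ _ h3] at this
            · have := h1 (N + 1) (by omega) le_rfl
              rwa [e2, ← add_assoc] at this
          · rintro ⟨h1, h2⟩ m h3 h4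
            rcases Nat.lt_or_ge N m with h5 | h5
            · have : m = N + 1 := by omega
              subst this
              rwa [e2, ← add_assoc]
            · rw [ps_update _ _ h5]
              exact h1 m h3 h5
        rw [e2, ← add_assoc]
        by_cases h6 : ∀ m, 1 ≤ m → m ≤ N → x + ps (fun i => ξ i ω) m ∉ A
        · by_cases h7 : x + ps (fun i => ξ i ω) N + s ∈ A
          · rw [if_neg (fun h8 => (e3.1 h8).2 h7), if_pos h7, zero_mul, mul_zero]
          · rw [if_pos (e3.2 ⟨h6, h7⟩), if_pos h6, if_neg h7]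
        · rw [if_neg (fun h8 => h6 (e3.1 h8).1), if_neg h6, zero_mul, zero_mul]
      rw [sum_congr rfl e1, ← integral_finsetSum]
      · refine integral_congr_ae (Eventually.of_forall fun ω => ?_)
        show _ = (if _ then (1 : ℝ) else 0) * Q f _
        rw [hQ]
        show _ = (if _ then (1 : ℝ) else 0) * ∑ s ∈ S, _
        rw [mul_sum]
        exact sum_congr rfl fun s _ => by ring
      · intro s _
        have hd' : Dep N (fun a : ℕ → V => w s * ((if ∀ m, 1 ≤ m → m ≤ N → x + ps a m ∉ A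
            then (1 : ℝ) else 0) * (if x + ps a N + s ∈ A then 0 else f (x + ps a N + s)))) := by
          intro a b hab
          have e1 := hdep N (fun y => if y + s ∈ A then 0 else f (y + s)) a b hab
          have e2 : (if ∀ m, 1 ≤ m → m ≤ N → x + ps a m ∉ A then (1 : ℝ) else 0) *
              (if x + ps a N + s ∈ A then 0 else f (x + ps a N + s)) =
              (if ∀ m, 1 ≤ m → m ≤ N → x + ps b m ∉ A then (1 : ℝ) else 0) *
              (if x + ps b N + s ∈ A then 0 else f (x + ps b N + s)) := e1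
          show w s * _ = w s * _
          rw [e2]
        exact int_dep h hd'
  have hs : ∀ N, surv S w A N = Q^[N] (fun _ => 1) := by
    intro N
    induction N with
    | zero => rfl
    | succ N ih =>
      rw [Function.iterate_succ_apply', ← ih]
      rfl
  rw [hs N, ← key N]
  have hmeas : MeasurableSet {ω | ∀ m, 1 ≤ m → m ≤ N → x + ps (fun i => ξ i ω) m ∉ A} := by
    have h1 := meas_dep h (hdep N (fun _ => 1))
    have h2 : {ω | ∀ m, 1 ≤ m → m ≤ N → x + ps (fun i => ξ i ω) m ∉ A} =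
        (fun ω => g N (fun _ => 1) (fun i => ξ i ω)) ⁻¹' {1} := by
      ext ω
      show (∀ m, 1 ≤ m → m ≤ N → x + ps (fun i => ξ i ω) m ∉ A) ↔
        (if ∀ m, 1 ≤ m → m ≤ N → x + ps (fun i => ξ i ω) m ∉ A then (1 : ℝ) else 0) * 1 = 1
      rw [mul_one]
      by_cases h3 : ∀ m, 1 ≤ m → m ≤ N → x + ps (fun i => ξ i ω) m ∉ A
      · rw [if_pos h3]; exact ⟨fun _ => rfl, fun _ => h3⟩
      · rw [if_neg h3]; exact ⟨fun h4 => absurd h4 h3, fun h4 => absurd h4 zero_ne_one⟩
    rw [h2]
    exact h1 (measurableSet_singleton 1)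
  rw [← integral_indicator_one hmeas]
  refine integral_congr_ae (Eventually.of_forall fun ω => ?_)
  show Set.indicator _ _ _ = (if ∀ m, 1 ≤ m → m ≤ N → x + ps (fun i => ξ i ω) m ∉ A
    then (1 : ℝ) else 0) * 1
  rw [mul_one]
  by_cases h3 : ∀ m, 1 ≤ m → m ≤ N → x + ps (fun i => ξ i ω) m ∉ A
  · rw [if_pos h3, Set.indicator_of_mem (by exact h3)]
    rfl
  · rw [if_neg h3, Set.indicator_of_notMem (by exact h3)]

theorem esc_eq (hw : Wts S w) (h : IsWalk S w P ξ) (A : Finset V) (x : V) :
    P.real {ω | ∀ m, 1 ≤ m → x + ps (fun i => ξ i ω) m ∉ A} = esc S w A x := by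
  classical
  have hmeas : ∀ m, MeasurableSet {ω | x + ps (fun i => ξ i ω) m ∉ A} := by
    intro m
    have hd : Dep m (fun a : ℕ → V => if x + ps a m ∉ A then (1 : ℝ) else 0) := by
      intro a b hab
      show (if _ then (1 : ℝ) else 0) = (if _ then (1 : ℝ) else 0)
      rw [ps_congr hab le_rfl]
    have h1 := meas_dep h hd
    have h2 : {ω | x + ps (fun i => ξ i ω) m ∉ A} =
        (fun ω => (if x + ps (fun i => ξ i ω) m ∉ A then (1 : ℝ) else 0)) ⁻¹' {1} := by
      ext ω
      show (x + ps (fun i => ξ i ω) m ∉ A) ↔ (if x + ps (fun i => ξ i ω) m ∉ A then (1 : ℝ) else 0) = 1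
      by_cases h3 : x + ps (fun i => ξ i ω) m ∉ A
      · rw [if_pos h3]; exact ⟨fun _ => rfl, fun _ => h3⟩
      · rw [if_neg h3]; exact ⟨fun h4 => absurd h4 h3, fun h4 => absurd h4 zero_ne_one⟩
    rw [h2]
    exact h1 (measurableSet_singleton 1)
  set s : ℕ → Set Ω := fun N => {ω | ∀ m, 1 ≤ m → m ≤ N → x + ps (fun i => ξ i ω) m ∉ A} with hs
  have hsm : ∀ N, MeasurableSet (s N) := by
    intro N
    have : s N = ⋂ m, ⋂ (_ : 1 ≤ m), ⋂ (_ : m ≤ N), {ω | x + ps (fun i => ξ i ω) m ∉ A} := by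
      ext ω
      simp [hs]
    rw [this]
    exact MeasurableSet.iInter fun m => MeasurableSet.iInter fun _ => MeasurableSet.iInter fun _ =>
      hmeas m
  have hanti : Antitone s := fun N N' hN ω hω m h1 h2 => hω m h1 (h2.trans hN)
  have h1 := tendsto_measure_iInter_atTop (μ := P) (s := s)
    (fun N => (hsm N).nullMeasurableSet) hanti ⟨0, measure_ne_top _ _⟩
  have h2 : ⋂ N, s N = {ω | ∀ m, 1 ≤ m → x + ps (fun i => ξ i ω) m ∉ A} := by
    ext ω
    rw [Set.mem_iInter]
    exact ⟨fun h3 m h4 => h3 m m h4 le_rfl, fun h3 N m h4 _ => h3 m h4⟩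
  rw [h2] at h1
  have h3 := (ENNReal.tendsto_toReal (measure_ne_top P _)).comp h1
  have h4 : Tendsto (fun N => surv S w A N x) atTop
      (𝓝 (P.real {ω | ∀ m, 1 ≤ m → x + ps (fun i => ξ i ω) m ∉ A})) := by
    refine h3.congr fun N => ?_
    exact surv_eq hw h A x N
  exact tendsto_nhds_unique h4 (tendsto_surv hw A x)

end Q10.CR
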