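import Pool.Agent.Q10.CR.Low
import Pool.Agent.Q10.CR.Prob

/-!
# Bounds for the asymptotic capacity of the range
-/

set_option autoImplicit false

namespace Q10.CR

open Finset Filter Topology MeasureTheory ProbabilityTheory

section general

variable {V : Type*} [AddCommGroup V] [DecidableEq V] [MeasurableSpace V] [Countable V]
  [MeasurableSingletonClass V] {S : Finset V} {w : V → ℝ}
variable {Ω : Type*} [MeasurableSpace Ω] {P : Measure Ω} [IsProbabilityMeasure P]
variable {ξ : ℕ → Ω → V}

/-- the capacity of the range of the first `n` steps -/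
noncomputable def capR (S : Finset V) (w : V → ℝ) (n : ℕ) (a : ℕ → V) : ℝ :=
  cp S w ((range (n + 1)).image (ps a))

theorem dep_capR (S : Finset V) (w : V → ℝ) (n : ℕ) : Dep n (capR S w n) := by
  intro a b hab
  unfold capR
  congr 1
  refine image_congr fun i hi => ?_
  rw [mem_coe, mem_range] at hi
  exact ps_congr hab (by omega)

theorem capR_nonneg (hw : Wts S w) (n : ℕ) (a : ℕ → V) : 0 ≤ capR S w n a := cp_nonneg hw _

theorem capR_le (hw : Wts S w) (n : ℕ) (a : ℕ → V) : capR S w n a ≤ n + 1 := by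
  refine (cp_le_card hw _).trans ?_
  have : ((range (n + 1)).image (ps a)).card ≤ n + 1 := card_image_le.trans (card_range _).le
  exact_mod_cast this

theorem partial_le (hw : Wts S w) (hG : ∀ x, Summable fun n => ker S w n x) (x : V) (n : ℕ) :
    ∑ m ∈ range n, ker S w m x ≤ grn S w x :=
  (hG x).sum_le_tsum _ fun m _ => ker_nonneg hw m x

/-- a finite set that contains the positions up to time `n` -/
def bigB (S : Finset V) (n : ℕ) : Finset V := (range (n + 1)).biUnion (supp S)

theorem supp_bigB (S : Finset V) {m n : ℕ} (h : m ≤ n) : supp S m ⊆ bigB S n :=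
  subset_biUnion_of_mem (supp S) (mem_range.2 (by omega))

theorem exp_nu (hw : Wts S w) (h : IsWalk S w P ξ) (hG : ∀ x, Summable fun n => ker S w n x)
    {K : ℝ} (hK : ∀ Q : Finset V, ∑ x ∈ Q, grn S w x ^ 2 ≤ K) {n k : ℕ} (hk : k ≤ n) :
    ∫ ω, ∑ j ∈ range (n + 1), grn S w (ps (fun i => ξ i ω) k - ps (fun i => ξ i ω) j) ∂P ≤ 2 * K := by
  set B := bigB S n with hB
  set α : ℕ → ℝ := fun m => ∑ x ∈ B, ker S w m x * grn S w x with hα
  set β : ℕ → ℝ := fun m => ∑ x ∈ B, ker S w m x * grn S w (-x) with hβ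
  have hα0 : ∀ m, 0 ≤ α m := fun m => sum_nonneg fun x _ => mul_nonneg (ker_nonneg hw _ _) (grn_nonneg hw _)
  have hβ0 : ∀ m, 0 ≤ β m := fun m => sum_nonneg fun x _ => mul_nonneg (ker_nonneg hw _ _) (grn_nonneg hw _)
  have hdep : ∀ j, j ≤ n → Dep n (fun a : ℕ → V => grn S w (ps a k - ps a j)) := by
    intro j hj a b hab
    show grn S w _ = grn S w _
    rw [ps_congr hab hk, ps_congr hab hj]
  rw [integral_finsetSum]
  swap
  · intro j hj
    rw [mem_range] at hj
    exact int_dep h (hdep j (by omega))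
  have e1 : ∀ j ∈ range (k + 1),
      ∫ ω, grn S w (ps (fun i => ξ i ω) k - ps (fun i => ξ i ω) j) ∂P = α (k + 1 - 1 - j) := by
    intro j hj
    rw [mem_range] at hj
    have h1 := exp_incr_le hw h j (k - j) (grn S w) B (supp_bigB S (by omega))
    rw [show j + (k - j) = k by omega] at h1
    exact h1
  have e2 : ∀ j ∈ Ico (k + 1) (n + 1),
      ∫ ω, grn S w (ps (fun i => ξ i ω) k - ps (fun i => ξ i ω) j) ∂P = β (j - k) := by
    intro j hj
    rw [mem_Ico] at hj
    have h1 := exp_incr_le hw h k (j - k) (fun x => grn S w (-x)) B (supp_bigB S (by omega))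
    rw [show k + (j - k) = j by omega] at h1
    simp only [neg_sub] at h1
    exact h1
  rw [← sum_range_add_sum_Ico _ (show k + 1 ≤ n + 1 by omega), sum_congr rfl e1, sum_congr rfl e2,
    sum_range_reflect α (k + 1), sum_Ico_eq_sum_range]
  have f1 : ∑ m ∈ range (k + 1), α m ≤ ∑ m ∈ range (n + 1), α m :=
    sum_le_sum_of_subset_of_nonneg (range_subset_range.2 (by omega)) fun m _ _ => hα0 m
  have f2 : ∑ i ∈ range (n + 1 - (k + 1)), β (k + 1 + i - k) ≤ ∑ m ∈ range (n + 1), β m := by
    have g1 : ∑ i ∈ range (n + 1 - (k + 1)), β (k + 1 + i - k) =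
        ∑ m ∈ (range (n + 1 - (k + 1))).image (fun i => i + 1), β m := by
      rw [sum_image (fun a _ b _ hab => Nat.succ_injective hab)]
      exact sum_congr rfl fun i _ => by congr 1; omega
    rw [g1]
    refine sum_le_sum_of_subset_of_nonneg ?_ fun m _ _ => hβ0 m
    intro m hm
    rw [mem_image] at hm
    obtain ⟨i, hi, rfl⟩ := hm
    rw [mem_range] at hi ⊢
    omega
  have f3 : ∑ m ∈ range (n + 1), α m ≤ K := by
    rw [hα]
    rw [sum_comm]
    refine le_trans (sum_le_sum fun x _ => ?_) (hK B)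
    rw [← sum_mul, sq]
    exact mul_le_mul_of_nonneg_right (partial_le hw hG x _) (grn_nonneg hw _)
  have f4 : ∑ m ∈ range (n + 1), β m ≤ K := by
    rw [hβ]
    rw [sum_comm]
    have g1 : ∀ x ∈ B, ∑ m ∈ range (n + 1), ker S w m x * grn S w (-x) ≤
        (grn S w x ^ 2 + grn S w (-x) ^ 2) / 2 := by
      intro x _
      rw [← sum_mul]
      have := mul_le_mul_of_nonneg_right (partial_le hw hG x (n + 1)) (grn_nonneg hw (-x))
      nlinarith [sq_nonneg (grn S w x - grn S w (-x))]
    refine (sum_le_sum g1).trans ?_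
    rw [← sum_div, sum_add_distrib]
    have g2 : ∑ x ∈ B, grn S w (-x) ^ 2 = ∑ x ∈ B.image (fun x => -x), grn S w x ^ 2 := by
      rw [sum_image (fun a _ b _ hab => neg_injective hab)]
    rw [g2]
    have := hK B
    have := hK (B.image (fun x => -x))
    linarith
  linarith

theorem lower (hw : Wts S w) (h : IsWalk S w P ξ) (hG : ∀ x, Summable fun n => ker S w n x)
    {K : ℝ} (hK0 : 0 < K) (hK : ∀ Q : Finset V, ∑ x ∈ Q, grn S w x ^ 2 ≤ K) (n : ℕ) :
    ((n : ℝ) + 1) / (8 * K) ≤ ∫ ω, capR S w n (fun i => ξ i ω) ∂P := by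
  classical
  have h1 : ∀ ω, ∑ k ∈ range (n + 1), (1 - (∑ j ∈ range (n + 1),
      grn S w (ps (fun i => ξ i ω) k - ps (fun i => ξ i ω) j)) / (4 * K)) ≤
      4 * K * capR S w n (fun i => ξ i ω) := by
    intro ω
    set X := ps (fun i => ξ i ω) with hX
    set J := (range (n + 1)).filter (fun k => ∑ j ∈ range (n + 1), grn S w (X k - X j) ≤ 4 * K) with hJ
    have a1 : (J.card : ℝ) ≤ 4 * K * cp S w (J.image X) := by
      refine card_le_cp hw hG X J (4 * K) fun k hk => ?_
      rw [hJ, mem_filter] at hk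
      refine le_trans (sum_le_sum_of_subset_of_nonneg (filter_subset _ _) fun j _ _ =>
        grn_nonneg hw _) hk.2
    have a2 : cp S w (J.image X) ≤ capR S w n (fun i => ξ i ω) :=
      cp_mono hw hG (image_subset_image (filter_subset _ _))
    have a3 : ∑ k ∈ range (n + 1), (1 - (∑ j ∈ range (n + 1), grn S w (X k - X j)) / (4 * K)) ≤
        (J.card : ℝ) := by
      rw [hJ, card_filter, Nat.cast_sum]
      refine sum_le_sum fun k _ => ?_
      have hnn : 0 ≤ ∑ j ∈ range (n + 1), grn S w (X k - X j) := sum_nonneg fun j _ => grn_nonneg hw _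
      split_ifs with hc
      · push_cast
        have : 0 ≤ (∑ j ∈ range (n + 1), grn S w (X k - X j)) / (4 * K) := by positivity
        linarith
      · push_cast
        rw [not_le] at hc
        rw [sub_nonpos, one_le_div (by positivity)]
        exact hc.le
    have a4 := mul_le_mul_of_nonneg_left a2 (by positivity : 0 ≤ 4 * K)
    linarith
  have hdep : ∀ k ∈ range (n + 1), Dep n (fun a : ℕ → V =>
      (1 - (∑ j ∈ range (n + 1), grn S w (ps a k - ps a j)) / (4 * K))) := by
    intro k hk a b hab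
    rw [mem_range] at hk
    show 1 - _ / _ = 1 - _ / _
    congr 2
    refine sum_congr rfl fun j hj => ?_
    rw [mem_range] at hj
    rw [ps_congr hab (n := k) (by omega), ps_congr hab (n := j) (by omega)]
  have h2 : ∫ ω, ∑ k ∈ range (n + 1), (1 - (∑ j ∈ range (n + 1),
      grn S w (ps (fun i => ξ i ω) k - ps (fun i => ξ i ω) j)) / (4 * K)) ∂P ≤
      ∫ ω, 4 * K * capR S w n (fun i => ξ i ω) ∂P := by
    refine integral_mono ?_ ?_ h1
    · exact integrable_finsetSum _ fun k hk => int_dep h (hdep k hk)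
    · exact (int_dep h (dep_capR S w n)).const_mul _
  rw [integral_const_mul] at h2
  have h3 : ((n : ℝ) + 1) / 2 ≤ ∫ ω, ∑ k ∈ range (n + 1), (1 - (∑ j ∈ range (n + 1),
      grn S w (ps (fun i => ξ i ω) k - ps (fun i => ξ i ω) j)) / (4 * K)) ∂P := by
    rw [integral_finsetSum _ fun k hk => int_dep h (hdep k hk)]
    have b1 : ∀ k ∈ range (n + 1), (1 / 2 : ℝ) ≤ ∫ ω, (1 - (∑ j ∈ range (n + 1),
        grn S w (ps (fun i => ξ i ω) k - ps (fun i => ξ i ω) j)) / (4 * K)) ∂P := by
      intro k hk
      rw [mem_range] at hk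
      have c1 := exp_nu hw h hG hK (n := n) (k := k) (by omega)
      have hd : Dep n (fun a : ℕ → V => ∑ j ∈ range (n + 1), grn S w (ps a k - ps a j)) := by
        intro a b hab
        refine sum_congr rfl fun j hj => ?_
        rw [mem_range] at hj
        rw [ps_congr hab (n := k) (by omega), ps_congr hab (n := j) (by omega)]
      rw [integral_sub (integrable_const _) ((int_dep h hd).div_const _), integral_div]
      simp only [integral_const, probReal_univ, one_smul]
      have c2 : (∫ ω, ∑ j ∈ range (n + 1),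
          grn S w (ps (fun i => ξ i ω) k - ps (fun i => ξ i ω) j) ∂P) / (4 * K) ≤ 1 / 2 := by
        rw [div_le_iff₀ (by positivity)]
        linarith
      linarith
    have b2 := sum_le_sum b1
    rw [sum_const, card_range, nsmul_eq_mul] at b2
    push_cast at b2
    linarith
  rw [div_le_iff₀ (by positivity)]
  linarith

/-- the limit of the expectations -/
theorem limit_exp (hw : Wts S w) (h : IsWalk S w P ξ) {c : ℝ}
    (hc : ∀ᵐ ω ∂P, Tendsto (fun n : ℕ => capR S w n (fun i => ξ i ω) / n) atTop (𝓝 c)) :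
    Tendsto (fun n : ℕ => (∫ ω, capR S w n (fun i => ξ i ω) ∂P) / n) atTop (𝓝 c) := by
  have h1 : Tendsto (fun n : ℕ => ∫ ω, capR S w n (fun i => ξ i ω) / n ∂P) atTop
      (𝓝 (∫ _ω, c ∂P)) := by
    refine tendsto_integral_of_dominated_convergence (fun _ => 2) (fun n => ?_) (integrable_const _)
      (fun n => ?_) hc
    · exact ((int_dep h (dep_capR S w n)).div_const _).aestronglyMeasurable
    · refine Eventually.of_forall fun ω => ?_
      have h2 := capR_nonneg hw n (fun i => ξ i ω)
      have h3 := capR_le hw n (fun i => ξ i ω)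
      rw [Real.norm_eq_abs, abs_of_nonneg (div_nonneg h2 (Nat.cast_nonneg n))]
      rcases Nat.eq_zero_or_pos n with hn | hn
      · subst hn
        simp
      · have hn1 : (1 : ℝ) ≤ n := by exact_mod_cast hn
        rw [div_le_iff₀ (by linarith)]
        linarith
  simp only [integral_const, probReal_univ, one_smul] at h1
  refine h1.congr fun n => ?_
  rw [integral_div]

theorem limit_lower (hw : Wts S w) (h : IsWalk S w P ξ) (hG : ∀ x, Summable fun n => ker S w n x)
    {K : ℝ} (hK0 : 0 < K) (hK : ∀ Q : Finset V, ∑ x ∈ Q, grn S w x ^ 2 ≤ K) {c : ℝ}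
    (hc : ∀ᵐ ω ∂P, Tendsto (fun n : ℕ => capR S w n (fun i => ξ i ω) / n) atTop (𝓝 c)) :
    1 / (8 * K) ≤ c := by
  refine ge_of_tendsto (limit_exp hw h hc) ?_
  filter_upwards [eventually_ge_atTop 1] with n hn
  have h1 := lower hw h hG hK0 hK n
  have hn1 : (1 : ℝ) ≤ n := by exact_mod_cast hn
  rw [le_div_iff₀ (by linarith)]
  refine le_trans ?_ h1
  rw [one_div, ← div_eq_inv_mul]
  gcongr
  linarith

end general

/-! ### the simple random walk on `ℤ⁴` -/

section srw

variable {Ω : Type*} [MeasurableSpace Ω] {P : Measure Ω} [IsProbabilityMeasure P]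
variable {ξ : ℕ → Ω → (Fin 4 → ℤ)}

theorem nz_neg (x : Fin 4 → ℤ) : nz (-x) = nz x := by
  unfold nz
  simp

theorem nz_sum (x : Fin 4 → ℤ) : ∑ s ∈ S4, wt 0 s * (nz (x + s) : ℝ) = nz x + 1 := by
  have h1 : ∀ s, wt 0 s * (nz (x + s) : ℝ) = 1 / 8 * (nz (x + s) : ℝ) := fun s => by rw [wt_zero]
  rw [sum_congr rfl fun s _ => h1 s, ← mul_sum, sum_S4]
  have h2 : ∀ j : Fin 4, (nz (x + Pi.single j 1) : ℝ) + nz (x + -Pi.single j 1) = 2 * nz x + 2 := by
    intro j
    have e1 := nz_add_single x j
    have e2 := nz_sub_single x j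
    rw [sub_neg_eq_add] at e1
    rw [sub_eq_add_neg] at e2
    rw [e1, e2]
    push_cast
    ring
  rw [sum_congr rfl fun j _ => h2 j, sum_const, card_univ, Fintype.card_fin]
  simp
  ring

theorem exp_nz (m : ℕ) : ∑ x ∈ supp S4 m, ker S4 (wt 0) m x * (nz x : ℝ) = m := by
  induction m with
  | zero => unfold supp ker; simp [nz]
  | succ m ih =>
    have hw := wts_wt (t := 0) le_rfl (by norm_num)
    rw [kersum_succ S4 (wt 0) m (fun x => (nz x : ℝ))]
    have e1 : ∑ s ∈ S4, wt 0 s * ∑ x ∈ supp S4 m, ker S4 (wt 0) m x * (nz (x + s) : ℝ) =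
        ∑ x ∈ supp S4 m, ker S4 (wt 0) m x * ((nz x : ℝ) + 1) := by
      simp only [mul_sum]
      rw [sum_comm]
      refine sum_congr rfl fun x _ => ?_
      rw [← nz_sum x, mul_sum]
      exact sum_congr rfl fun s _ => by ring
    rw [e1]
    simp only [mul_add, mul_one]
    rw [sum_add_distrib, ih, kersum_one hw]
    push_cast
    ring

/-- the weighted sum of squares -/
noncomputable def TT (L k : ℕ) (a : ℕ → Fin 4 → ℤ) : ℝ :=
  ∑ m ∈ Icc 1 L, (1 + (nz (ps a (k + m) - ps a k) : ℝ)) / (m : ℝ) ^ 2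

/-- the harmonic sum -/
noncomputable def HH (L : ℕ) : ℝ := ∑ m ∈ Icc 1 L, 1 / (m : ℝ)

theorem dep_TT (L k : ℕ) {n : ℕ} (hn : k + L ≤ n) : Dep n (TT L k) := by
  intro a b hab
  unfold TT
  refine sum_congr rfl fun m hm => ?_
  rw [mem_Icc] at hm
  rw [ps_congr hab (n := k + m) (by omega), ps_congr hab (n := k) (by omega)]

theorem TT_nonneg (L k : ℕ) (a : ℕ → Fin 4 → ℤ) : 0 ≤ TT L k a := by
  refine sum_nonneg fun m _ => div_nonneg ?_ (by positivity)
  have : (0 : ℝ) ≤ nz (ps a (k + m) - ps a k) := by exact_mod_cast nz_nonneg _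
  linarith

theorem exp_TT (h : IsWalk S4 (wt 0) P ξ) (L k : ℕ) : ∫ ω, TT L k (fun i => ξ i ω) ∂P ≤ 2 * HH L := by
  have hw := wts_wt (t := 0) le_rfl (by norm_num)
  unfold TT
  rw [integral_finsetSum]
  · unfold HH
    rw [mul_sum]
    refine sum_le_sum fun m hm => ?_
    rw [mem_Icc] at hm
    have hm1 : (1 : ℝ) ≤ m := by exact_mod_cast hm.1
    rw [integral_div]
    have e1 := exp_incr hw h k m (fun x => 1 + (nz x : ℝ))
    simp only [mul_add, mul_one] at e1
    rw [sum_add_distrib, kersum_one hw, exp_nz] at e1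
    rw [e1, div_le_iff₀ (by positivity)]
    have : 2 * (1 / (m : ℝ)) * (m : ℝ) ^ 2 = 2 * m := by field_simp
    rw [this]
    linarith
  · intro m _
    have hd : Dep (k + m) (fun a : ℕ → Fin 4 → ℤ =>
        (1 + (nz (ps a (k + m) - ps a k) : ℝ)) / (m : ℝ) ^ 2) := by
      intro a b hab
      show (1 + (nz _ : ℝ)) / _ = (1 + (nz _ : ℝ)) / _
      rw [ps_congr hab le_rfl, ps_congr hab (n := k) (by omega)]
    exact int_dep h hd

theorem cauchy (L k : ℕ) (a : ℕ → Fin 4 → ℤ) :
    HH L ^ 2 ≤ TT L k a * ∑ m ∈ Icc 1 L, 1 / (1 + (nz (ps a (k + m) - ps a k) : ℝ)) := by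
  unfold HH TT
  refine sum_sq_le_sum_mul_sum_of_sq_eq_mul _ (fun m _ => ?_) (fun m _ => ?_) fun m hm => ?_
  · have : (0 : ℝ) ≤ nz (ps a (k + m) - ps a k) := by exact_mod_cast nz_nonneg _
    positivity
  · have : (0 : ℝ) ≤ nz (ps a (k + m) - ps a k) := by exact_mod_cast nz_nonneg _
    positivity
  · rw [mem_Icc] at hm
    have hm1 : (m : ℝ) ≠ 0 := by
      have : (1 : ℝ) ≤ m := by exact_mod_cast hm.1
      linarith
    have : (0 : ℝ) ≤ nz (ps a (k + m) - ps a k) := by exact_mod_cast nz_nonneg _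
    have h2 : (1 + (nz (ps a (k + m) - ps a k) : ℝ)) ≠ 0 := by linarith
    field_simp

theorem upper {c : ℝ} (hc : 0 < c) (hlow : ∀ x, c / (1 + nz x) ≤ G0 x) (h : IsWalk S4 (wt 0) P ξ)
    {κ : ℝ} (hκ : 0 < κ) {L : ℕ} (hL : 1 ≤ L) (n : ℕ) :
    ∫ ω, capR S4 (wt 0) n (fun i => ξ i ω) ∂P ≤
      ((n : ℝ) + 1) / κ + (L + ((n : ℝ) + 1) * (2 * κ / (c * HH L))) := by
  classical
  have hw := wts_wt (t := 0) le_rfl (by norm_num)
  have hH : 0 < HH L := by
    unfold HH
    refine sum_pos (fun m hm => ?_) ⟨1, mem_Icc.2 ⟨le_rfl, hL⟩⟩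
    rw [mem_Icc] at hm
    have : (1 : ℝ) ≤ m := by exact_mod_cast hm.1
    positivity
  have h1 : ∀ ω, capR S4 (wt 0) n (fun i => ξ i ω) ≤ ((n : ℝ) + 1) / κ +
      (L + ∑ k ∈ range (n + 1), if k + L ≤ n then TT L k (fun i => ξ i ω) * (κ / (c * HH L ^ 2)) else 0) := by
    intro ω
    set X := ps (fun i => ξ i ω) with hX
    have a1 := cp_le hw summable_srw X (range (n + 1)) κ hκ
    rw [card_range] at a1
    push_cast at a1
    have a2 : (((range (n + 1)).filter (fun k => ∑ j ∈ range (n + 1),
        grn S4 (wt 0) (X k - X j) < κ)).card : ℝ) ≤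
        L + ∑ k ∈ range (n + 1), if k + L ≤ n then TT L k (fun i => ξ i ω) * (κ / (c * HH L ^ 2)) else 0 := by
      have b1 : (((range (n + 1)).filter (fun k => ∑ j ∈ range (n + 1),
          grn S4 (wt 0) (X k - X j) < κ)).card : ℝ) ≤
          ∑ k ∈ range (n + 1), ((if n < k + L then (1 : ℝ) else 0) +
            if k + L ≤ n then TT L k (fun i => ξ i ω) * (κ / (c * HH L ^ 2)) else 0) := by
        rw [card_filter, Nat.cast_sum]
        refine sum_le_sum fun k hk => ?_
        rw [mem_range] at hk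
        have hT0 := TT_nonneg L k (fun i => ξ i ω)
        rcases Nat.lt_or_ge n (k + L) with hkL | hkL
        · have e1 : (if n < k + L then (1 : ℝ) else 0) = 1 := if_pos hkL
          have e2 : (if k + L ≤ n then TT L k (fun i => ξ i ω) * (κ / (c * HH L ^ 2)) else 0) = 0 :=
            if_neg (by omega)
          rw [e1, e2]
          split_ifs <;> norm_num
        · have e1 : (if n < k + L then (1 : ℝ) else 0) = 0 := if_neg (by omega)
          have e2 : (if k + L ≤ n then TT L k (fun i => ξ i ω) * (κ / (c * HH L ^ 2)) else 0) =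
            TT L k (fun i => ξ i ω) * (κ / (c * HH L ^ 2)) := if_pos hkL
          rw [e1, e2, zero_add]
          split_ifs with hlt
          · push_cast
            -- the sum is small
            have b2 : ∑ m ∈ Icc 1 L, c * (1 / (1 + (nz (X (k + m) - X k) : ℝ))) < κ := by
              refine lt_of_le_of_lt ?_ hlt
              calc ∑ m ∈ Icc 1 L, c * (1 / (1 + (nz (X (k + m) - X k) : ℝ)))
                  ≤ ∑ m ∈ Icc 1 L, grn S4 (wt 0) (X k - X (k + m)) := by
                    refine sum_le_sum fun m _ => ?_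
                    have := hlow (X k - X (k + m))
                    rw [← nz_neg, neg_sub] at this
                    rw [mul_one_div]
                    exact this
                _ = ∑ j ∈ (Icc 1 L).image (fun m => k + m), grn S4 (wt 0) (X k - X j) := by
                    rw [sum_image (fun a _ b _ hab => Nat.add_left_cancel hab)]
                _ ≤ ∑ j ∈ range (n + 1), grn S4 (wt 0) (X k - X j) := by
                    refine sum_le_sum_of_subset_of_nonneg ?_ fun j _ _ => grn_nonneg hw _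
                    intro j hj
                    rw [mem_image] at hj
                    obtain ⟨m, hm, rfl⟩ := hj
                    rw [mem_Icc] at hm
                    rw [mem_range]
                    omega
            rw [← mul_sum] at b2
            have b3 := cauchy L k (fun i => ξ i ω)
            rw [← hX] at b3
            set Z := ∑ m ∈ Icc 1 L, 1 / (1 + (nz (X (k + m) - X k) : ℝ)) with hZ
            set T := TT L k (fun i => ξ i ω)
            have b4 : c * HH L ^ 2 ≤ T * κ := by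
              calc c * HH L ^ 2 ≤ c * (T * Z) := mul_le_mul_of_nonneg_left b3 hc.le
                _ = T * (c * Z) := by ring
                _ ≤ T * κ := mul_le_mul_of_nonneg_left b2.le hT0
            have e : T * (κ / (c * HH L ^ 2)) = (T * κ) / (c * HH L ^ 2) := by ring
            rw [e, one_le_div (by positivity)]
            exact b4
          · push_cast
            positivity
      refine b1.trans ?_
      rw [sum_add_distrib]
      have b5 : ∑ k ∈ range (n + 1), (if n < k + L then (1 : ℝ) else 0) ≤ L := by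
        rw [← sum_filter, sum_const, nsmul_eq_mul, mul_one]
        have : ((range (n + 1)).filter (fun k => n < k + L)) ⊆ Ico (n + 1 - L) (n + 1) := by
          intro k hk
          rw [mem_filter, mem_range] at hk
          rw [mem_Ico]
          omega
        have h5 := card_le_card this
        rw [Nat.card_Ico] at h5
        exact_mod_cast h5.trans (by omega)
      linarith
    exact a1.trans (add_le_add le_rfl a2)
  have hdep : ∀ k ∈ range (n + 1), Dep n (fun a : ℕ → Fin 4 → ℤ =>
      if k + L ≤ n then TT L k a * (κ / (c * HH L ^ 2)) else 0) := by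
    intro k _ a b hab
    show (if k + L ≤ n then _ else (0 : ℝ)) = if k + L ≤ n then _ else 0
    split_ifs with hk
    · rw [dep_TT L k hk a b hab]
    · rfl
  have hFint : Integrable (fun ω => ∑ k ∈ range (n + 1),
      if k + L ≤ n then TT L k (fun i => ξ i ω) * (κ / (c * HH L ^ 2)) else 0) P :=
    integrable_finsetSum _ fun k hk => int_dep h (hdep k hk)
  have h2 : ∫ ω, capR S4 (wt 0) n (fun i => ξ i ω) ∂P ≤ ∫ ω, ((((n : ℝ) + 1) / κ + L) +
      ∑ k ∈ range (n + 1), if k + L ≤ n then TT L k (fun i => ξ i ω) * (κ / (c * HH L ^ 2)) else 0) ∂P := by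
    refine integral_mono (int_dep h (dep_capR _ _ n)) ((integrable_const _).add hFint) fun ω => ?_
    have := h1 ω
    show _ ≤ (((n : ℝ) + 1) / κ + L) + _
    linarith
  refine h2.trans ?_
  rw [integral_add (integrable_const _) hFint,
    integral_finsetSum _ fun k hk => int_dep h (hdep k hk)]
  simp only [integral_const, probReal_univ, one_smul]
  have h3 : ∑ k ∈ range (n + 1), ∫ ω, (if k + L ≤ n then TT L k (fun i => ξ i ω) *
      (κ / (c * HH L ^ 2)) else 0) ∂P ≤ ∑ _k ∈ range (n + 1), 2 * κ / (c * HH L) := by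
    refine sum_le_sum fun k _ => ?_
    split_ifs with hk
    · rw [integral_mul_const]
      have := exp_TT h L k
      calc (∫ ω, TT L k (fun i => ξ i ω) ∂P) * (κ / (c * HH L ^ 2))
          ≤ (2 * HH L) * (κ / (c * HH L ^ 2)) := mul_le_mul_of_nonneg_right this (by positivity)
        _ = 2 * κ / (c * HH L) := by field_simp
    · rw [integral_zero]
      positivity
  rw [sum_const, card_range, nsmul_eq_mul] at h3
  push_cast at h3
  linarith

theorem tendsto_HH : Tendsto HH atTop atTop := by
  have h1 : HH = fun L => ∑ i ∈ range L, 1 / ((i : ℝ) + 1) := by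
    funext L
    induction L with
    | zero => unfold HH; simp
    | succ L ih =>
      rw [sum_range_succ, ← ih]
      unfold HH
      rw [sum_Icc_succ_top (by omega)]
      push_cast
      rfl
  rw [h1]
  exact Real.tendsto_sum_range_one_div_nat_succ_atTop

theorem limit_zero (h : IsWalk S4 (wt 0) P ξ) {c : ℝ}
    (hc : ∀ᵐ ω ∂P, Tendsto (fun n : ℕ => capR S4 (wt 0) n (fun i => ξ i ω) / n) atTop (𝓝 c)) :
    c = 0 := by
  have hw := wts_wt (t := 0) le_rfl (by norm_num)
  have hlim := limit_exp hw h hc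
  have hc0 : 0 ≤ c := ge_of_tendsto' hlim fun n =>
    div_nonneg (integral_nonneg fun ω => capR_nonneg hw n _) (Nat.cast_nonneg n)
  obtain ⟨g, hg, hlow⟩ := green_low
  have key : ∀ κ : ℝ, 0 < κ → ∀ L : ℕ, 1 ≤ L → c ≤ 1 / κ + 2 * κ / (g * HH L) := by
    intro κ hκ L hL
    have h1 : Tendsto (fun n : ℕ => (((n : ℝ) + 1) / κ + (L + ((n : ℝ) + 1) *
        (2 * κ / (g * HH L)))) / n) atTop (𝓝 (1 / κ + 2 * κ / (g * HH L))) := by
      have h2 : Tendsto (fun n : ℕ => (1 / κ + 2 * κ / (g * HH L)) +
          (1 / κ + L + 2 * κ / (g * HH L)) / (n : ℝ)) atTop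
          (𝓝 (1 / κ + 2 * κ / (g * HH L) + 0)) :=
        tendsto_const_nhds.add (tendsto_const_div_atTop_nhds_zero_nat _)
      rw [add_zero] at h2
      refine h2.congr' ?_
      filter_upwards [eventually_ge_atTop 1] with n hn
      have hn0 : (n : ℝ) ≠ 0 := by
        have : (1 : ℝ) ≤ n := by exact_mod_cast hn
        linarith
      field_simp
      ring
    refine le_of_tendsto_of_tendsto hlim h1 ?_
    filter_upwards with n
    exact div_le_div_of_nonneg_right (upper hg hlow h hκ hL n) (Nat.cast_nonneg n)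
  have key2 : ∀ κ : ℝ, 0 < κ → c ≤ 1 / κ := by
    intro κ hκ
    have h1 : Tendsto (fun L : ℕ => 1 / κ + 2 * κ / (g * HH L)) atTop (𝓝 (1 / κ + 0)) := by
      refine tendsto_const_nhds.add ?_
      exact Tendsto.div_atTop tendsto_const_nhds (tendsto_HH.const_mul_atTop hg)
    rw [add_zero] at h1
    refine ge_of_tendsto h1 ?_
    filter_upwards [eventually_ge_atTop 1] with L hL
    exact key κ hκ L hL
  by_contra hne
  have hpos : 0 < c := lt_of_le_of_ne hc0 (Ne.symm hne)
  have h1 := key2 (2 / c) (by positivity)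
  rw [one_div_div] at h1
  linarith

end srw

end Q10.CR
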