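import Mathlib

/-!
# Potential theory of a finite range random walk on a group

`ker n x` are the transition probabilities, `surv A N x` is the probability to avoid `A` during the
steps `1, …, N` when starting at `x`, `esc A x` its limit. The last exit decomposition
`∑_{x ∈ A} G (x - y) esc A x ≤ 1`, with equality for `y ∈ A`, and bounds for capacities of finite
families of points.
-/

set_option autoImplicit false

namespace Q10.CR

open Finset Filter Topology

variable {V : Type*} [AddCommGroup V] [DecidableEq V]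

/-- the transition probabilities from `0` to `x` in `n` steps -/
def ker (S : Finset V) (w : V → ℝ) : ℕ → V → ℝ
  | 0, x => if x = 0 then 1 else 0
  | n + 1, x => ∑ s ∈ S, w s * ker S w n (x - s)

/-- the probability that the walk from `x` avoids `A` during the steps `1, …, N` -/
def surv (S : Finset V) (w : V → ℝ) (A : Finset V) : ℕ → V → ℝ
  | 0, _ => 1
  | n + 1, x => ∑ s ∈ S, w s * (if x + s ∈ A then 0 else surv S w A n (x + s))

/-- the escape probability -/
noncomputable def esc (S : Finset V) (w : V → ℝ) (A : Finset V) (x : V) : ℝ :=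
  ⨅ N, surv S w A N x

/-- the Green function -/
noncomputable def grn (S : Finset V) (w : V → ℝ) (x : V) : ℝ := ∑' n, ker S w n x

/-- weights -/
structure Wts (S : Finset V) (w : V → ℝ) : Prop where
  nn : ∀ s ∈ S, 0 ≤ w s
  one : ∑ s ∈ S, w s = 1

variable {S : Finset V} {w : V → ℝ}

theorem ker_nonneg (h : Wts S w) (n : ℕ) (x : V) : 0 ≤ ker S w n x := by
  induction n generalizing x with
  | zero => unfold ker; split_ifs <;> norm_num
  | succ n ih => exact sum_nonneg fun s hs => mul_nonneg (h.nn s hs) (ih _)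

theorem surv_nonneg (h : Wts S w) (A : Finset V) (n : ℕ) (x : V) : 0 ≤ surv S w A n x := by
  induction n generalizing x with
  | zero => exact zero_le_one
  | succ n ih =>
    refine sum_nonneg fun s hs => mul_nonneg (h.nn s hs) ?_
    split_ifs
    · exact le_rfl
    · exact ih _

theorem surv_le_one (h : Wts S w) (A : Finset V) (n : ℕ) (x : V) : surv S w A n x ≤ 1 := by
  induction n generalizing x with
  | zero => exact le_rfl
  | succ n ih =>
    calc surv S w A (n + 1) x ≤ ∑ s ∈ S, w s * 1 := by
          refine sum_le_sum fun s hs => mul_le_mul_of_nonneg_left ?_ (h.nn s hs)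
          split_ifs
          · exact zero_le_one
          · exact ih _
      _ = 1 := by simp [h.one]

theorem surv_succ_le (h : Wts S w) (A : Finset V) (n : ℕ) (x : V) :
    surv S w A (n + 1) x ≤ surv S w A n x := by
  induction n generalizing x with
  | zero => exact surv_le_one h A 1 x
  | succ n ih =>
    refine sum_le_sum fun s hs => mul_le_mul_of_nonneg_left ?_ (h.nn s hs)
    split_ifs
    · exact le_rfl
    · exact ih _

theorem surv_anti (h : Wts S w) (A : Finset V) (x : V) : Antitone (fun n => surv S w A n x) :=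
  antitone_nat_of_succ_le fun n => surv_succ_le h A n x

theorem tendsto_surv (h : Wts S w) (A : Finset V) (x : V) :
    Tendsto (fun n => surv S w A n x) atTop (𝓝 (esc S w A x)) :=
  tendsto_atTop_ciInf (surv_anti h A x) ⟨0, by rintro _ ⟨n, rfl⟩; exact surv_nonneg h A n x⟩

theorem esc_nonneg (h : Wts S w) (A : Finset V) (x : V) : 0 ≤ esc S w A x :=
  ge_of_tendsto' (tendsto_surv h A x) fun n => surv_nonneg h A n x

theorem esc_le_one (h : Wts S w) (A : Finset V) (x : V) : esc S w A x ≤ 1 :=
  le_of_tendsto' (tendsto_surv h A x) fun n => surv_le_one h A n x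

theorem last_exit_fin (h : Wts S w) (A : Finset V) (N : ℕ) (y : V) :
    ∑ ij ∈ antidiagonal N, ∑ x ∈ A, ker S w ij.1 (x - y) * surv S w A ij.2 x =
      1 - (if y ∈ A then 0 else surv S w A N y) := by
  induction N generalizing y with
  | zero =>
    rw [Finset.Nat.antidiagonal_zero, sum_singleton]
    unfold ker surv
    simp only [sub_eq_zero, mul_one]
    rw [sum_ite_eq']
    split_ifs <;> norm_num
  | succ N ih =>
    rw [Finset.Nat.sum_antidiagonal_succ]
    have e1 : ∑ x ∈ A, ker S w 0 (x - y) * surv S w A (N + 1) x =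
        if y ∈ A then surv S w A (N + 1) y else 0 := by
      unfold ker
      simp only [sub_eq_zero, ite_mul, one_mul, zero_mul]
      rw [sum_ite_eq']
    have e2 : ∑ p ∈ antidiagonal N, ∑ x ∈ A, ker S w (p.1 + 1) (x - y) * surv S w A p.2 x =
        ∑ s ∈ S, w s * (1 - (if y + s ∈ A then 0 else surv S w A N (y + s))) := by
      have e3 : ∀ p ∈ antidiagonal N, ∑ x ∈ A, ker S w (p.1 + 1) (x - y) * surv S w A p.2 x =
          ∑ s ∈ S, w s * ∑ x ∈ A, ker S w p.1 (x - (y + s)) * surv S w A p.2 x := by
        intro p _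
        have : ∀ x ∈ A, ker S w (p.1 + 1) (x - y) * surv S w A p.2 x =
            ∑ s ∈ S, w s * (ker S w p.1 (x - (y + s)) * surv S w A p.2 x) := by
          intro x _
          show (∑ s ∈ S, w s * ker S w p.1 (x - y - s)) * _ = _
          rw [sum_mul]
          refine sum_congr rfl fun s _ => ?_
          rw [sub_sub, mul_assoc]
        rw [sum_congr rfl this, sum_comm]
        exact sum_congr rfl fun s _ => (mul_sum _ _ _).symm
      rw [sum_congr rfl e3, sum_comm]
      refine sum_congr rfl fun s _ => ?_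
      rw [← mul_sum, ih]
    rw [e1, e2]
    have e4 : ∑ s ∈ S, w s * (1 - (if y + s ∈ A then 0 else surv S w A N (y + s))) =
        1 - surv S w A (N + 1) y := by
      show _ = 1 - ∑ s ∈ S, w s * (if y + s ∈ A then 0 else surv S w A N (y + s))
      calc ∑ s ∈ S, w s * (1 - (if y + s ∈ A then 0 else surv S w A N (y + s)))
          = ∑ s ∈ S, (w s - w s * (if y + s ∈ A then 0 else surv S w A N (y + s))) :=
            sum_congr rfl fun s _ => by ring
        _ = 1 - ∑ s ∈ S, w s * (if y + s ∈ A then 0 else surv S w A N (y + s)) := by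
            rw [sum_sub_distrib, h.one]
    rw [e4]
    split_ifs <;> ring

theorem tendsto_conv {a b : ℕ → ℝ} {B : ℝ} (ha : ∀ n, 0 ≤ a n) (hs : Summable a)
    (hb0 : ∀ n, 0 ≤ b n) (hb1 : ∀ n, b n ≤ 1) (hb : Tendsto b atTop (𝓝 B)) :
    Tendsto (fun N => ∑ ij ∈ antidiagonal N, a ij.1 * b ij.2) atTop (𝓝 ((∑' n, a n) * B)) := by
  have h1 : Tendsto (fun N => ∑' m, if m ≤ N then a m * b (N - m) else 0) atTop
      (𝓝 (∑' m, a m * B)) := by
    refine tendsto_tsum_of_dominated_convergence (bound := a) hs (fun m => ?_) ?_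
    · have h2 : Tendsto (fun N => a m * b (N - m)) atTop (𝓝 (a m * B)) :=
        (hb.comp (tendsto_sub_atTop_nat m)).const_mul _
      refine h2.congr' ?_
      filter_upwards [eventually_ge_atTop m] with N hN
      rw [if_pos hN]
    · filter_upwards with N m
      split_ifs
      · rw [Real.norm_eq_abs, abs_of_nonneg (mul_nonneg (ha _) (hb0 _))]
        exact mul_le_of_le_one_right (ha m) (hb1 _)
      · rw [norm_zero]; exact ha m
  rw [tsum_mul_right] at h1
  refine h1.congr fun N => ?_
  rw [Finset.Nat.sum_antidiagonal_eq_sum_range_succ (fun i j => a i * b j)]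
  rw [tsum_eq_sum (s := range (N + 1))]
  · refine sum_congr rfl fun m hm => ?_
    rw [if_pos (by rw [mem_range] at hm; omega)]
  · intro m hm
    rw [if_neg (by rw [mem_range] at hm; omega)]

theorem last_exit (h : Wts S w) (hG : ∀ x, Summable fun n => ker S w n x) (A : Finset V) (y : V) :
    ∑ x ∈ A, grn S w (x - y) * esc S w A x = 1 - (if y ∈ A then 0 else esc S w A y) := by
  have h1 : Tendsto (fun N => ∑ x ∈ A, ∑ ij ∈ antidiagonal N,
      ker S w ij.1 (x - y) * surv S w A ij.2 x) atTop
      (𝓝 (∑ x ∈ A, grn S w (x - y) * esc S w A x)) :=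
    tendsto_finsetSum _ fun x _ => tendsto_conv (fun n => ker_nonneg h n _) (hG _)
      (fun n => surv_nonneg h A n x) (fun n => surv_le_one h A n x) (tendsto_surv h A x)
  have h2 : Tendsto (fun N => 1 - (if y ∈ A then 0 else surv S w A N y)) atTop
      (𝓝 (1 - (if y ∈ A then 0 else esc S w A y))) := by
    split_ifs
    · exact tendsto_const_nhds
    · exact (tendsto_surv h A y).const_sub 1
  refine tendsto_nhds_unique h1 (h2.congr fun N => ?_)
  rw [← last_exit_fin h A N y, sum_comm]

theorem last_exit_mem (h : Wts S w) (hG : ∀ x, Summable fun n => ker S w n x) {A : Finset V} {y : V}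
    (hy : y ∈ A) : ∑ x ∈ A, grn S w (x - y) * esc S w A x = 1 := by
  rw [last_exit h hG, if_pos hy, sub_zero]

theorem last_exit_le (h : Wts S w) (hG : ∀ x, Summable fun n => ker S w n x) (A : Finset V) (y : V) :
    ∑ x ∈ A, grn S w (x - y) * esc S w A x ≤ 1 := by
  rw [last_exit h hG]
  split_ifs
  · simp
  · linarith [esc_nonneg h A y]

theorem grn_nonneg (h : Wts S w) (x : V) : 0 ≤ grn S w x := tsum_nonneg fun n => ker_nonneg h n x

/-! ### the reversed walk -/

/-- the steps of the reversed walk -/
def rS (S : Finset V) : Finset V := S.image (fun s => -s)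

/-- the weights of the reversed walk -/
def rw' (w : V → ℝ) : V → ℝ := fun s => w (-s)

theorem sum_rS (S : Finset V) (f : V → ℝ) : ∑ s ∈ rS S, f s = ∑ s ∈ S, f (-s) := by
  unfold rS
  rw [sum_image]
  intro a _ b _ hab
  exact neg_injective hab

theorem wts_rev (h : Wts S w) : Wts (rS S) (rw' w) := by
  constructor
  · intro s hs
    unfold rS at hs
    rw [mem_image] at hs
    obtain ⟨a, ha, rfl⟩ := hs
    unfold rw'
    rw [neg_neg]
    exact h.nn a ha
  · rw [sum_rS]
    unfold rw'
    simp only [neg_neg]
    exact h.one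

theorem ker_rev (S : Finset V) (w : V → ℝ) (n : ℕ) (x : V) :
    ker (rS S) (rw' w) n x = ker S w n (-x) := by
  induction n generalizing x with
  | zero => unfold ker; simp
  | succ n ih =>
    show ∑ s ∈ rS S, rw' w s * ker (rS S) (rw' w) n (x - s) = ∑ s ∈ S, w s * ker S w n (-x - s)
    rw [sum_rS]
    refine sum_congr rfl fun s _ => ?_
    rw [ih]
    unfold rw'
    rw [neg_neg]
    congr 2
    abel

theorem grn_rev (S : Finset V) (w : V → ℝ) (x : V) : grn (rS S) (rw' w) x = grn S w (-x) := by
  unfold grn
  simp only [ker_rev]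

/-- The capacity. -/
noncomputable def cp (S : Finset V) (w : V → ℝ) (A : Finset V) : ℝ := ∑ x ∈ A, esc S w A x

theorem cp_nonneg (h : Wts S w) (A : Finset V) : 0 ≤ cp S w A :=
  sum_nonneg fun x _ => esc_nonneg h A x

theorem cp_le_card (h : Wts S w) (A : Finset V) : cp S w A ≤ A.card := by
  calc cp S w A ≤ ∑ _x ∈ A, (1 : ℝ) := sum_le_sum fun x _ => esc_le_one h A x
    _ = A.card := by simp

theorem cp_mono (h : Wts S w) (hG : ∀ x, Summable fun n => ker S w n x) {A' A : Finset V}
    (hA : A' ⊆ A) : cp S w A' ≤ cp S w A := by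
  have hr := wts_rev h
  have hGr : ∀ x, Summable fun n => ker (rS S) (rw' w) n x := by
    intro x
    simp only [ker_rev]
    exact hG _
  set f := esc (rS S) (rw' w) A with hf
  have h1 : ∀ x ∈ A, ∑ y ∈ A, grn S w (x - y) * f y = 1 := by
    intro x hx
    rw [← last_exit_mem hr hGr hx]
    refine sum_congr rfl fun y _ => ?_
    rw [grn_rev, neg_sub]
  have h2 : cp S w A' ≤ ∑ y ∈ A, f y := by
    calc cp S w A' = ∑ x ∈ A', esc S w A' x * ∑ y ∈ A, grn S w (x - y) * f y := by
          refine sum_congr rfl fun x hx => ?_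
          rw [h1 x (hA hx), mul_one]
      _ = ∑ y ∈ A, f y * ∑ x ∈ A', grn S w (x - y) * esc S w A' x := by
          simp only [mul_sum]
          rw [sum_comm]
          refine sum_congr rfl fun y _ => sum_congr rfl fun x _ => ?_
          ring
      _ ≤ ∑ y ∈ A, f y * 1 := by
          refine sum_le_sum fun y _ => mul_le_mul_of_nonneg_left (last_exit_le h hG A' y)
            (esc_nonneg hr A y)
      _ = ∑ y ∈ A, f y := by simp
  have h3 : ∑ y ∈ A, f y = cp S w A := by
    calc ∑ y ∈ A, f y = ∑ y ∈ A, f y * ∑ x ∈ A, grn S w (x - y) * esc S w A x := by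
          refine sum_congr rfl fun y hy => ?_
          rw [last_exit_mem h hG hy, mul_one]
      _ = ∑ x ∈ A, esc S w A x * ∑ y ∈ A, grn S w (x - y) * f y := by
          simp only [mul_sum]
          rw [sum_comm]
          refine sum_congr rfl fun y _ => sum_congr rfl fun x _ => ?_
          ring
      _ = cp S w A := by
          refine sum_congr rfl fun x hx => ?_
          rw [h1 x hx, mul_one]
  linarith

/-- lower bound for the capacity of the image of a finite family -/
theorem card_le_cp (h : Wts S w) (hG : ∀ x, Summable fun n => ker S w n x) (X : ℕ → V)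
    (J : Finset ℕ) (K : ℝ) (hK : ∀ k ∈ J, ∑ j ∈ J, grn S w (X k - X j) ≤ K) :
    (J.card : ℝ) ≤ K * cp S w (J.image X) := by
  calc (J.card : ℝ) = ∑ j ∈ J, ∑ x ∈ J.image X, grn S w (x - X j) * esc S w (J.image X) x := by
        rw [sum_congr rfl fun j hj => last_exit_mem h hG (mem_image_of_mem X hj)]
        simp
    _ = ∑ x ∈ J.image X, esc S w (J.image X) x * ∑ j ∈ J, grn S w (x - X j) := by
        rw [sum_comm]
        refine sum_congr rfl fun x _ => ?_
        rw [mul_sum]
        exact sum_congr rfl fun j _ => mul_comm _ _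
    _ ≤ ∑ x ∈ J.image X, esc S w (J.image X) x * K := by
        refine sum_le_sum fun x hx => mul_le_mul_of_nonneg_left ?_ (esc_nonneg h _ x)
        rw [mem_image] at hx
        obtain ⟨k, hk, rfl⟩ := hx
        exact hK k hk
    _ = K * cp S w (J.image X) := by
        rw [← sum_mul, mul_comm]
        rfl

/-- upper bound for the capacity of the image of a finite family -/
theorem cp_le (h : Wts S w) (hG : ∀ x, Summable fun n => ker S w n x) (X : ℕ → V)
    (J : Finset ℕ) (K : ℝ) (hK : 0 < K) :
    cp S w (J.image X) ≤ (J.card : ℝ) / K +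
      (J.filter (fun k => ∑ j ∈ J, grn S w (X k - X j) < K)).card := by
  classical
  set A := J.image X with hA
  have e1 : (J.card : ℝ) = ∑ x ∈ A, esc S w A x * ∑ j ∈ J, grn S w (x - X j) := by
    calc (J.card : ℝ) = ∑ j ∈ J, ∑ x ∈ A, grn S w (x - X j) * esc S w A x := by
          rw [sum_congr rfl fun j hj => last_exit_mem h hG (mem_image_of_mem X hj)]
          simp
      _ = ∑ x ∈ A, esc S w A x * ∑ j ∈ J, grn S w (x - X j) := by
          rw [sum_comm]
          refine sum_congr rfl fun x _ => ?_
          rw [mul_sum]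
          exact sum_congr rfl fun j _ => mul_comm _ _
  set lo := A.filter (fun x => ∑ j ∈ J, grn S w (x - X j) < K) with hlo
  set hi := A.filter (fun x => ¬ ∑ j ∈ J, grn S w (x - X j) < K) with hhi
  have e2 : cp S w A = ∑ x ∈ lo, esc S w A x + ∑ x ∈ hi, esc S w A x :=
    (sum_filter_add_sum_filter_not _ _ _).symm
  have e3 : ∑ x ∈ hi, esc S w A x ≤ (J.card : ℝ) / K := by
    rw [le_div_iff₀ hK, e1, sum_mul]
    calc ∑ x ∈ hi, esc S w A x * K ≤ ∑ x ∈ hi, esc S w A x * ∑ j ∈ J, grn S w (x - X j) := by
          refine sum_le_sum fun x hx => mul_le_mul_of_nonneg_left ?_ (esc_nonneg h _ x)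
          rw [hhi, mem_filter] at hx
          exact not_lt.1 hx.2
      _ ≤ ∑ x ∈ A, esc S w A x * ∑ j ∈ J, grn S w (x - X j) := by
          refine sum_le_sum_of_subset_of_nonneg (filter_subset _ _) fun x _ _ => ?_
          exact mul_nonneg (esc_nonneg h _ x) (sum_nonneg fun j _ => grn_nonneg h _)
  have e4 : ∑ x ∈ lo, esc S w A x ≤
      ((J.filter (fun k => ∑ j ∈ J, grn S w (X k - X j) < K)).card : ℝ) := by
    calc ∑ x ∈ lo, esc S w A x ≤ ∑ _x ∈ lo, (1 : ℝ) := sum_le_sum fun x _ => esc_le_one h _ x
      _ = (lo.card : ℝ) := by simp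
      _ ≤ _ := by
        have : lo ⊆ (J.filter (fun k => ∑ j ∈ J, grn S w (X k - X j) < K)).image X := by
          intro x hx
          rw [hlo, mem_filter, hA, mem_image] at hx
          obtain ⟨⟨k, hk, rfl⟩, hx2⟩ := hx
          exact mem_image_of_mem X (mem_filter.2 ⟨hk, hx2⟩)
        exact_mod_cast (card_le_card this).trans card_image_le
  linarith

end Q10.CR
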