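import Pool.Agent.Q10.CR.Four

/-!
# The nearest neighbour walks on `ℤ⁴` with a drift `t` in the first direction
-/

set_option autoImplicit false

namespace Q10.CR

open Finset Filter Topology MeasureTheory
open scoped Real

/-- the unit vectors and their negatives -/
def unit (p : Fin 4 × Bool) : Fin 4 → ℤ := if p.2 then Pi.single p.1 1 else -Pi.single p.1 1

theorem unit_inj : Function.Injective unit := by
  decide

/-- the eight neighbours of the origin -/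
def S4 : Finset (Fin 4 → ℤ) := univ.image unit

/-- the weights `1/8`, with `1/8 ± t/2` in the first direction -/
noncomputable def wt (t : ℝ) (s : Fin 4 → ℤ) : ℝ := 1 / 8 + t / 2 * s 0

theorem sum_S4 {M : Type*} [AddCommMonoid M] (f : (Fin 4 → ℤ) → M) :
    ∑ s ∈ S4, f s = ∑ j, (f (Pi.single j 1) + f (-Pi.single j 1)) := by
  unfold S4
  rw [sum_image (fun a _ b _ h => unit_inj h), Fintype.sum_prod_type]
  refine sum_congr rfl fun j _ => ?_
  simp [unit]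

theorem wts_wt {t : ℝ} (h0 : 0 ≤ t) (h1 : t ≤ 1 / 4) : Wts S4 (wt t) := by
  constructor
  · intro s hs
    unfold S4 at hs
    rw [mem_image] at hs
    obtain ⟨⟨j, b⟩, -, rfl⟩ := hs
    have h2 : (-1 : ℤ) ≤ unit (j, b) 0 := by
      revert j b
      decide
    have h3 : (-1 : ℝ) ≤ (unit (j, b) 0 : ℤ) := by exact_mod_cast h2
    unfold wt
    nlinarith
  · rw [sum_S4]
    simp only [Fin.sum_univ_four, wt]
    simp
    ring

theorem ch_single (j : Fin 4) (θ : Fin 4 → ℝ) :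
    ch (Pi.single j 1) θ = Complex.exp (Complex.I * θ j) := by
  unfold ch
  rw [prod_eq_single j]
  · simp
  · intro i _ hij
    rw [Pi.single_apply, if_neg hij]
    simp
  · intro h
    exact absurd (mem_univ j) h

theorem phi_eq (t : ℝ) (θ : Fin 4 → ℝ) :
    phi S4 (wt t) θ = ((1 / 4 * ∑ j, Real.cos (θ j) : ℝ) : ℂ) + (t * Real.sin (θ 0) : ℝ) * Complex.I := by
  unfold phi
  rw [sum_S4]
  have h1 : ∀ j : Fin 4, ch (-Pi.single j 1) θ = Complex.exp (-(Complex.I * θ j)) := by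
    intro j
    have h2 := ch_add (Pi.single j 1) (-Pi.single j 1) θ
    rw [add_neg_cancel, ch_zero, ch_single] at h2
    rw [Complex.exp_neg, ← one_div, eq_div_iff (Complex.exp_ne_zero _), mul_comm]
    exact h2.symm
  have h3 : ∀ j : Fin 4, (Real.cos (θ j) : ℂ) =
      (Complex.exp (Complex.I * θ j) + Complex.exp (-(Complex.I * θ j))) / 2 := by
    intro j
    rw [Complex.ofReal_cos, Complex.cos]
    congr 3 <;> ring
  have h4 : (Real.sin (θ 0) : ℂ) * Complex.I =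
      (Complex.exp (Complex.I * θ 0) - Complex.exp (-(Complex.I * θ 0))) / 2 := by
    rw [Complex.ofReal_sin, Complex.sin]
    have e1 : Complex.exp (-(θ 0 : ℂ) * Complex.I) = Complex.exp (-(Complex.I * θ 0)) := by
      congr 1; ring
    have e2 : Complex.exp ((θ 0 : ℂ) * Complex.I) = Complex.exp (Complex.I * θ 0) := by
      congr 1; ring
    rw [e1, e2]
    have := Complex.I_mul_I
    linear_combination (-(Complex.exp (-(Complex.I * θ 0)) - Complex.exp (Complex.I * θ 0)) / 2 *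
      (-1)) * this
  have e5 : ((t * Real.sin (θ 0) : ℝ) : ℂ) * Complex.I =
      t * ((Real.sin (θ 0) : ℂ) * Complex.I) := by
    rw [Complex.ofReal_mul, mul_assoc]
  have e6 : ((1 / 4 * ∑ j, Real.cos (θ j) : ℝ) : ℂ) = 1 / 4 * ∑ j, (Real.cos (θ j) : ℂ) := by
    rw [Complex.ofReal_mul, Complex.ofReal_sum]
    norm_num
  rw [e5, e6, h4]
  simp only [Fin.sum_univ_four, h1, ch_single, h3]
  have k0 : ((wt t (Pi.single 0 1) : ℝ) : ℂ) = 1 / 8 + t / 2 := by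
    unfold wt; simp
  have k0' : ((wt t (-Pi.single 0 1) : ℝ) : ℂ) = 1 / 8 - t / 2 := by
    unfold wt; simp; ring
  have k1 : ∀ j : Fin 4, j ≠ 0 → ((wt t (Pi.single j 1) : ℝ) : ℂ) = 1 / 8 := by
    intro j hj; unfold wt; simp [Pi.single_apply, Ne.symm hj]
  have k1' : ∀ j : Fin 4, j ≠ 0 → ((wt t (-Pi.single j 1) : ℝ) : ℂ) = 1 / 8 := by
    intro j hj; unfold wt; simp [Pi.single_apply, Ne.symm hj]
  rw [k0, k0', k1 1 (by decide), k1' 1 (by decide), k1 2 (by decide), k1' 2 (by decide),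
    k1 3 (by decide), k1' 3 (by decide)]
  ring

/-- the square norm -/
def nsq (θ : Fin 4 → ℝ) : ℝ := ∑ j, θ j ^ 2

theorem nsq_nonneg (θ : Fin 4 → ℝ) : 0 ≤ nsq θ := sum_nonneg fun j _ => sq_nonneg _

theorem sq_le_nsq (θ : Fin 4 → ℝ) (j : Fin 4) : θ j ^ 2 ≤ nsq θ :=
  single_le_sum (f := fun j => θ j ^ 2) (fun j _ => sq_nonneg _) (mem_univ j)

theorem re_bound {t : ℝ} {θ : Fin 4 → ℝ} (hθ : ∀ j, |θ j| ≤ π) :
    nsq θ / (2 * π ^ 2) ≤ (1 - phi S4 (wt t) θ).re := by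
  rw [phi_eq]
  simp only [Complex.sub_re, Complex.one_re, Complex.add_re, Complex.ofReal_re, Complex.mul_re,
    Complex.I_re, mul_zero, Complex.ofReal_im, Complex.I_im, mul_one, sub_self, add_zero]
  unfold nsq
  simp only [Fin.sum_univ_four]
  have h := fun j => Real.cos_le_one_sub_mul_cos_sq (hθ j)
  have h0 := h 0
  have h1 := h 1
  have h2 := h 2
  have h3 := h 3
  have e : (θ 0 ^ 2 + θ 1 ^ 2 + θ 2 ^ 2 + θ 3 ^ 2) / (2 * π ^ 2) =
      1 / 4 * (2 / π ^ 2 * θ 0 ^ 2 + 2 / π ^ 2 * θ 1 ^ 2 + 2 / π ^ 2 * θ 2 ^ 2 + 2 / π ^ 2 * θ 3 ^ 2) := by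
    field_simp
    ring
  rw [e]
  linarith

theorem im_eq (t : ℝ) (θ : Fin 4 → ℝ) : (1 - phi S4 (wt t) θ).im = -(t * Real.sin (θ 0)) := by
  rw [phi_eq, Complex.sub_im, Complex.one_im, Complex.add_im, Complex.ofReal_im, Complex.mul_im,
    Complex.ofReal_re, Complex.ofReal_im, Complex.I_im]
  ring

theorem norm_bound {t : ℝ} (h0 : 0 ≤ t) (h1 : t ≤ 1) {θ : Fin 4 → ℝ} (hθ : ∀ j, |θ j| ≤ π) :
    1 / (8 * π ^ 4) * (nsq θ ^ 2 + t ^ 2 * θ 0 ^ 2) ≤ ‖1 - phi S4 (wt t) θ‖ ^ 2 := by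
  have e : ‖1 - phi S4 (wt t) θ‖ ^ 2 = (1 - phi S4 (wt t) θ).re ^ 2 + (1 - phi S4 (wt t) θ).im ^ 2 := by
    rw [← Complex.normSq_eq_norm_sq, Complex.normSq_apply]
    ring
  have hre := re_bound (t := t) hθ
  have hnn := nsq_nonneg θ
  have hpi := Real.pi_pos
  have hpi3 := Real.pi_gt_three
  have hre0 : 0 ≤ nsq θ / (2 * π ^ 2) := by positivity
  have hre2 : (nsq θ / (2 * π ^ 2)) ^ 2 ≤ (1 - phi S4 (wt t) θ).re ^ 2 :=
    pow_le_pow_left₀ hre0 hre 2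
  have e2 : (nsq θ / (2 * π ^ 2)) ^ 2 = 1 / (4 * π ^ 4) * nsq θ ^ 2 := by
    field_simp
    ring
  rw [e2] at hre2
  rw [e, im_eq]
  rcases le_total |θ 0| (π / 2) with h | h
  · have h2 := Real.mul_abs_le_abs_sin h
    have h3 : (2 / π * |θ 0|) ^ 2 ≤ |Real.sin (θ 0)| ^ 2 := pow_le_pow_left₀ (by positivity) h2 2
    rw [mul_pow, sq_abs, sq_abs] at h3
    have h4 : t ^ 2 * ((2 / π) ^ 2 * θ 0 ^ 2) ≤ (-(t * Real.sin (θ 0))) ^ 2 := by
      have : (-(t * Real.sin (θ 0))) ^ 2 = t ^ 2 * Real.sin (θ 0) ^ 2 := by ring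
      rw [this]
      exact mul_le_mul_of_nonneg_left h3 (sq_nonneg t)
    have h5 : 1 / (8 * π ^ 4) ≤ (2 / π) ^ 2 := by
      rw [div_le_iff₀ (by positivity)]
      have : (2 / π) ^ 2 * (8 * π ^ 4) = 32 * π ^ 2 := by field_simp; ring
      rw [this]
      nlinarith
    have h6 : 1 / (8 * π ^ 4) * (t ^ 2 * θ 0 ^ 2) ≤ t ^ 2 * ((2 / π) ^ 2 * θ 0 ^ 2) := by
      have : t ^ 2 * ((2 / π) ^ 2 * θ 0 ^ 2) = (2 / π) ^ 2 * (t ^ 2 * θ 0 ^ 2) := by ring
      rw [this]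
      exact mul_le_mul_of_nonneg_right h5 (by positivity)
    have h7 : 1 / (8 * π ^ 4) * nsq θ ^ 2 ≤ 1 / (4 * π ^ 4) * nsq θ ^ 2 := by
      refine mul_le_mul_of_nonneg_right ?_ (sq_nonneg _)
      exact one_div_le_one_div_of_le (by positivity) (by nlinarith [pow_pos hpi 4])
    linarith [sq_nonneg (-(t * Real.sin (θ 0)))]
  · have h2 : (π / 2) ^ 2 ≤ θ 0 ^ 2 := by
      rw [← sq_abs (θ 0)]
      exact pow_le_pow_left₀ (by positivity) h 2
    have h3 := sq_le_nsq θ 0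
    have h4 : t ^ 2 * θ 0 ^ 2 ≤ nsq θ ^ 2 := by
      have a1 : (1 : ℝ) ≤ (π / 2) ^ 2 := by nlinarith
      have a2 : t ^ 2 ≤ 1 := by nlinarith
      have a3 : θ 0 ^ 2 * 1 ≤ nsq θ * nsq θ := mul_le_mul h3 (by linarith) zero_le_one hnn
      nlinarith [sq_nonneg (θ 0)]
    have h5 : 1 / (8 * π ^ 4) * (nsq θ ^ 2 + t ^ 2 * θ 0 ^ 2) ≤ 1 / (8 * π ^ 4) * (2 * nsq θ ^ 2) :=
      mul_le_mul_of_nonneg_left (by linarith) (by positivity)
    have h6 : 1 / (8 * π ^ 4) * (2 * nsq θ ^ 2) = 1 / (4 * π ^ 4) * nsq θ ^ 2 := by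
      field_simp
      ring
    linarith [sq_nonneg (-(t * Real.sin (θ 0)))]

/-- the one-dimensional integral -/
theorem int_rpow {a : ℝ} (ha : a < 1) : Integrable (fun θ : ℝ => |θ| ^ (-a)) ν1 := by
  unfold ν1
  have h1 : IntervalIntegrable (fun θ : ℝ => |θ| ^ (-a)) volume 0 π := by
    refine (intervalIntegral.intervalIntegrable_rpow' (a := 0) (b := π) (r := -a)
      (by linarith)).congr ?_
    intro θ hθ
    rw [Set.uIoc_of_le Real.pi_pos.le] at hθ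
    show θ ^ (-a) = |θ| ^ (-a)
    rw [abs_of_pos hθ.1]
  have h2 : IntervalIntegrable (fun θ : ℝ => |θ| ^ (-a)) volume (-π) 0 := by
    rw [IntervalIntegrable.iff_comp_neg]
    simpa using h1.symm
  have h5 := h2.trans h1
  rwa [intervalIntegrable_iff_integrableOn_Ioc_of_le (by linarith [Real.pi_pos])] at h5

theorem int_prod {a : ℝ} (ha : a < 1) :
    Integrable (fun θ : Fin 4 → ℝ => ∏ j, |θ j| ^ (-a)) ν4 := by
  unfold ν4
  exact Integrable.fintype_prod (f := fun (_ : Fin 4) (θ : ℝ) => |θ| ^ (-a)) fun _ => int_rpow ha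

theorem ae_box : ∀ᵐ θ ∂ν4, (∀ j, |θ j| ≤ π) ∧ ∀ j, θ j ≠ 0 := by
  have h1 : ∀ j : Fin 4, ∀ᵐ θ ∂ν4, θ j ≠ 0 := by
    intro j
    have := Measure.ae_eval_ne (μ := fun _ : Fin 4 => ν1) j 0
    exact this
  have h2 : ∀ᵐ x ∂ν1, |x| ≤ π := by
    unfold ν1
    filter_upwards [ae_restrict_mem measurableSet_Ioc] with x hx
    rw [abs_le]
    exact ⟨hx.1.le, hx.2⟩
  have h3 : ∀ j : Fin 4, ∀ᵐ θ ∂ν4, |θ j| ≤ π := by
    intro j
    exact (Measure.quasiMeasurePreserving_eval (μ := fun _ : Fin 4 => ν1) j).ae h2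
  filter_upwards [ae_all_iff.2 h1, ae_all_iff.2 h3] with θ a1 a2
  exact ⟨a2, a1⟩

end Q10.CR
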